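import Pool.Agent.Lib.MP_399f8e_an.Rg.Norm

open Set Filter Topology Metric
open scoped RealInnerProductSpace

noncomputable section

namespace Pool.Agent.Lib.MP_399f8e_an.Rg

namespace CurveAux

/-- the polygon through the points `y k` -/
def poly (y : ℤ → E) (s : ℝ) : E := y ⌊s⌋ + (s - ⌊s⌋) • (y (⌊s⌋ + 1) - y ⌊s⌋)

theorem poly_eq (y : ℤ → E) (k : ℤ) {s : ℝ} (h1 : (k : ℝ) ≤ s) (h2 : s ≤ k + 1) :
    poly y s = y k + (s - k) • (y (k + 1) - y k) := by
  rcases h2.lt_or_eq with h | h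
  · have : ⌊s⌋ = k := Int.floor_eq_iff.2 ⟨h1, h⟩
    simp [poly, this]
  · have h3 : ⌊s⌋ = k + 1 := by
      rw [h]; exact_mod_cast Int.floor_intCast (R := ℝ) (k + 1)
    have h4 : s - ((k + 1 : ℤ) : ℝ) = 0 := by push_cast; linarith
    have h5 : s - (k : ℝ) = 1 := by linarith
    simp only [poly, h3, h4, h5, zero_smul, one_smul, add_zero]
    abel

theorem poly_int (y : ℤ → E) (k : ℤ) : poly y k = y k := by simp [poly]

theorem piece (y : ℤ → E) (v : E) (B : ℝ) (k : ℤ) {s' s : ℝ} (h1 : (k : ℝ) ≤ s') (h2 : s' ≤ s)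
    (h3 : s ≤ k + 1) (hB : ‖y (k + 1) - y k - v‖ ≤ B) :
    ‖poly y s - poly y s' - (s - s') • v‖ ≤ B * (s - s') := by
  rw [poly_eq y k (h1.trans h2) h3, poly_eq y k h1 (h2.trans h3)]
  have : y k + (s - k) • (y (k + 1) - y k) - (y k + (s' - k) • (y (k + 1) - y k)) - (s - s') • v
      = (s - s') • (y (k + 1) - y k - v) := by module
  rw [this, norm_smul, Real.norm_eq_abs, abs_of_nonneg (sub_nonneg.2 h2), mul_comm]
  exact mul_le_mul_of_nonneg_right hB (sub_nonneg.2 h2)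

theorem glue (y : ℤ → E) (v : E) (B : ℝ) (k : ℤ) (s' : ℝ) (h1 : (k : ℝ) ≤ s') (h2 : s' ≤ k + 1)
    (m : ℕ) : ∀ s : ℝ, s' ≤ s → ((k + m : ℤ) : ℝ) ≤ s → s ≤ ((k + m : ℤ) : ℝ) + 1 →
      (∀ j : ℤ, k ≤ j → j ≤ k + m → ‖y (j + 1) - y j - v‖ ≤ B) →
      ‖poly y s - poly y s' - (s - s') • v‖ ≤ B * (s - s') := by
  induction m with
  | zero =>
    intro s hs _ h4 hB
    exact piece y v B k h1 hs (by simpa using h4) (hB k le_rfl (by simp))
  | succ m ih =>
    intro s hs h3 h4 hB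
    set t : ℝ := ((k + (m + 1 : ℕ) : ℤ) : ℝ) with ht
    have hm : (0 : ℝ) ≤ m := Nat.cast_nonneg m
    have ht' : t = k + m + 1 := by rw [ht]; push_cast; ring
    have e1 := ih t (by linarith) (by push_cast; linarith) (by push_cast; linarith)
      (fun j hj hj' => hB j hj (by push_cast; omega))
    have e2 := piece y v B (k + (m + 1 : ℕ)) (s' := t) (s := s) le_rfl h3 h4
      (hB _ (by omega) le_rfl)
    have : poly y s - poly y s' - (s - s') • v
        = (poly y s - poly y t - (s - t) • v) + (poly y t - poly y s' - (t - s') • v) := by module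
    rw [this]
    refine (norm_add_le _ _).trans ?_
    nlinarith

theorem glue_le (y : ℤ → E) (v : E) (B : ℝ) {s' s : ℝ} (hs : s' ≤ s)
    (hB : ∀ j : ℤ, s' - 1 ≤ j → (j : ℝ) ≤ s → ‖y (j + 1) - y j - v‖ ≤ B) :
    ‖poly y s - poly y s' - (s - s') • v‖ ≤ B * (s - s') := by
  have hf : ⌊s'⌋ ≤ ⌊s⌋ := Int.floor_le_floor hs
  obtain ⟨m, hm⟩ : ∃ m : ℕ, ⌊s⌋ = ⌊s'⌋ + m := ⟨(⌊s⌋ - ⌊s'⌋).toNat, by omega⟩
  refine glue y v B ⌊s'⌋ s' (Int.floor_le _) (Int.lt_floor_add_one _).le m s hs ?_ ?_ ?_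
  · rw [← hm]; exact Int.floor_le _
  · rw [← hm]; exact (Int.lt_floor_add_one _).le
  · intro j hj hj'
    rw [← hm] at hj'
    have a1 : ((⌊s'⌋ : ℤ) : ℝ) ≤ j := by exact_mod_cast hj
    have a2 : (j : ℝ) ≤ ((⌊s⌋ : ℤ) : ℝ) := by exact_mod_cast hj'
    exact hB j (by linarith [Int.lt_floor_add_one s']) (a2.trans (Int.floor_le _))

theorem glue_abs (y : ℤ → E) (v : E) (B : ℝ) (s s' : ℝ)
    (hB : ∀ j : ℤ, min s s' - 1 ≤ j → (j : ℝ) ≤ max s s' → ‖y (j + 1) - y j - v‖ ≤ B) :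
    ‖poly y s - poly y s' - (s - s') • v‖ ≤ B * |s - s'| := by
  rcases le_total s' s with h | h
  · rw [abs_of_nonneg (sub_nonneg.2 h)]
    rw [min_eq_right h, max_eq_left h] at hB
    exact glue_le y v B h hB
  · rw [min_eq_left h, max_eq_right h] at hB
    have := glue_le y v B h hB
    have e : poly y s - poly y s' - (s - s') • v = -(poly y s' - poly y s - (s' - s) • v) := by
      module
    rw [abs_sub_comm, abs_of_nonneg (sub_nonneg.2 h), e, norm_neg]
    exact this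

theorem poly_per (y : ℤ → E) (Q : ℤ) (hy : ∀ k, y (k + Q) = y k) (s : ℝ) :
    poly y (s + Q) = poly y s := by
  have h1 : y (⌊s⌋ + Q + 1) = y (⌊s⌋ + 1) := by rw [add_right_comm, hy]
  have h2 : s + Q - ((⌊s⌋ + Q : ℤ) : ℝ) = s - ⌊s⌋ := by push_cast; ring
  simp only [poly, Int.floor_add_intCast, h1, h2, hy]

/-- a periodic chain of almost steps of a self-map of the sphere -/
theorem exists_chain (T : S → S) (ε : ℝ) (hε : 0 < ε) :
    ∃ (Q : ℕ) (y : ℤ → S), 0 < Q ∧ (∀ k, y (k + Q) = y k) ∧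
      ∀ k, ‖(y (k + 1) : E) - T (y k)‖ ≤ ε := by
  obtain ⟨a, φ, hφ, ha⟩ := CompactSpace.tendsto_subseq (fun i : ℕ => T^[i] pole)
  obtain ⟨M, hM⟩ := Metric.tendsto_atTop.1 ha (ε / 2) (half_pos hε)
  have hlt : φ M < φ (M + 1) := hφ (Nat.lt_succ_self M)
  have hd : ‖((T^[φ M] pole : S) : E) - (T^[φ (M + 1)] pole : S)‖ ≤ ε := by
    have b1 := hM M le_rfl
    have b2 := hM (M + 1) (Nat.le_succ M)
    have b3 := dist_triangle_right (T^[φ M] pole) (T^[φ (M + 1)] pole) a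
    rw [← dist_eq_norm, ← Subtype.dist_eq]
    simp only [Function.comp] at b1 b2
    linarith
  obtain ⟨Q, hQ, hQ'⟩ : ∃ Q : ℕ, 0 < Q ∧ φ (M + 1) = Q + φ M := ⟨φ (M + 1) - φ M, by omega, by omega⟩
  have hQ0 : (0 : ℤ) < Q := by exact_mod_cast hQ
  refine ⟨Q, fun k => T^[(k % Q).toNat + φ M] pole, hQ, fun k => by simp, fun k => ?_⟩
  have r0 : 0 ≤ k % Q := Int.emod_nonneg k hQ0.ne'
  have r1 : k % Q < Q := Int.emod_lt_of_pos k hQ0
  have r2 : (k + 1) % Q = (k % Q + 1) % Q := (Int.emod_add_emod k Q 1).symm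
  have hT : T (T^[(k % Q).toNat + φ M] pole) = T^[(k % Q).toNat + 1 + φ M] pole := by
    rw [add_right_comm, Function.iterate_succ_apply']
  simp only [hT, r2]
  rcases (Int.add_one_le_of_lt r1).lt_or_eq with h | h
  · have h' : ((k % Q + 1) % Q).toNat = (k % Q).toNat + 1 := by
      rw [Int.emod_eq_of_lt (by omega) h]; omega
    rw [h', sub_self, norm_zero]
    exact hε.le
  · have h' : ((k % Q + 1) % Q).toNat = 0 := by rw [h, Int.emod_self]; rfl
    have h'' : (k % Q).toNat + 1 = Q := by omega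
    rw [h', h'', zero_add, ← hQ']
    exact hd

theorem step (n : S → E) (h1 : ∀ x, ‖n x‖ = 1) (hp : ∀ x : S, ⟪(x : E), n x⟫ = 0) (h : ℝ)
    (h0 : 0 < h) (h4 : h ≤ 1 / 4) (x : S) :
    ‖(N ((x : E) + h • n x) : E) - x - h • n x‖ ≤ 4 * h * h := by
  have e1 : (x : E) + h • n x - x = h • n x := by abel
  have e2 : ‖h • n x‖ = h := by rw [norm_smul, h1, Real.norm_eq_abs, abs_of_pos h0, mul_one]
  have := N_est x ((x : E) + h • n x) x h h4 (by rw [e1, e2]) (by simpa using h0.le)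
  rw [e1, e2, N_coe, real_inner_smul_left, real_inner_comm, hp] at this
  simpa using this

end CurveAux

open CurveAux in
theorem exists_curve (n : S → E) (hn : Continuous n) (h1 : ∀ x, ‖n x‖ = 1)
    (hp : ∀ x : S, ⟪(x : E), n x⟫ = 0) (ρ : ℝ) (hρ : 0 < ρ) :
    ∃ (P : ℝ) (c : ℝ → S), 0 < P ∧ Continuous c ∧ Function.Periodic c P ∧
      ∀ θ₀, ∃ δ : ℝ, 0 < δ ∧ ∀ θ θ', |θ - θ₀| < δ → |θ' - θ₀| < δ →
        ‖(c θ : E) - c θ' - (θ - θ') • n (c θ₀)‖ ≤ ρ * |θ - θ'| := by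
  obtain ⟨κ, hκ0, hκ1, hκρ⟩ : ∃ κ : ℝ, 0 < κ ∧ κ ≤ 1 / 100 ∧ 100 * κ ≤ ρ :=
    ⟨min ρ 1 / 100, by positivity, by linarith [min_le_right ρ 1], by linarith [min_le_left ρ 1]⟩
  obtain ⟨e, he0, he⟩ := Metric.uniformContinuous_iff.1
    (CompactSpace.uniformContinuous_of_continuous hn) κ hκ0
  obtain ⟨h, h0, hκ, hhe⟩ : ∃ h : ℝ, 0 < h ∧ h ≤ κ ∧ 10 * h < e :=
    ⟨min κ (e / 11), by positivity, min_le_left _ _, by linarith [min_le_right κ (e / 11)]⟩
  obtain ⟨Q, y, hQ, hper, hy⟩ := exists_chain (fun x => N ((x : E) + h • n x)) (κ * h) (by positivity)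
  set Y : ℤ → E := fun k => (y k : E) with hY
  have hnh : ∀ x, ‖h • n x‖ = h := fun x => by
    rw [norm_smul, h1, Real.norm_eq_abs, abs_of_pos h0, mul_one]
  have s1 : ∀ k, ‖Y (k + 1) - Y k - h • n (y k)‖ ≤ 5 * κ * h := fun k => by
    have a1 := hy k
    have a2 := step n h1 hp h h0 (by linarith) (y k)
    have a3 : Y (k + 1) - Y k - h • n (y k) = ((y (k + 1) : E) - N ((y k : E) + h • n (y k)))
        + ((N ((y k : E) + h • n (y k)) : E) - y k - h • n (y k)) := by simp only [hY]; abel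
    rw [a3]
    refine (norm_add_le _ _).trans ?_
    nlinarith
  have s2 : ∀ k, ‖Y (k + 1) - Y k - 0‖ ≤ 2 * h := fun k => by
    have a3 : Y (k + 1) - Y k - 0 = (Y (k + 1) - Y k - h • n (y k)) + h • n (y k) := by abel
    rw [a3]
    refine (norm_add_le _ _).trans ?_
    rw [hnh]
    nlinarith [s1 k]
  have lip : ∀ s s', ‖poly Y s - poly Y s'‖ ≤ 2 * h * |s - s'| := fun s s' => by
    simpa using glue_abs Y 0 (2 * h) s s' fun j _ _ => s2 j
  have near : ∀ s, ‖poly Y s - y ⌊s⌋‖ ≤ 2 * h := fun s => by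
    have a1 := lip s ⌊s⌋
    rw [poly_int] at a1
    have a2 : |s - ⌊s⌋| ≤ 1 :=
      abs_le.2 ⟨by linarith [Int.floor_le s], by linarith [Int.lt_floor_add_one s]⟩
    exact a1.trans (by nlinarith)
  have hc : Continuous (poly Y) :=
    (LipschitzWith.of_dist_le_mul (K := ⟨2 * h, by positivity⟩) fun s s' => by
      rw [dist_eq_norm, Real.dist_eq]; exact lip s s').continuous
  refine ⟨Q * h, fun θ => N (poly Y (θ / h)), by positivity, ?_, fun θ => ?_, fun θ₀ => ⟨h, h0, ?_⟩⟩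
  · refine continuous_iff_continuousAt.2 fun θ => ?_
    have a1 : poly Y (θ / h) ≠ 0 := ne_zero_of_near ((near _).trans_lt (by linarith))
    exact ContinuousAt.comp (f := fun θ : ℝ => poly Y (θ / h)) (continuousAt_N a1)
      (hc.comp (continuous_id.div_const h)).continuousAt
  · have a1 : (θ + Q * h) / h = θ / h + ((Q : ℤ) : ℝ) := by push_cast; field_simp
    simp only [a1]
    rw [poly_per Y Q (fun k => by simp only [hY, hper])]
  · intro θ θ' hθ hθ'
    set s₀ := θ₀ / h with hs₀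
    set s := θ / h with hs
    set s' := θ' / h with hs'
    set x : S := N (poly Y s₀) with hx
    have d1 : ∀ t : ℝ, |t - θ₀| < h → |t / h - s₀| < 1 := fun t ht => by
      rw [hs₀, ← sub_div, abs_div, abs_of_pos h0, div_lt_one h0]; exact ht
    have d2 := d1 θ hθ
    have d3 := d1 θ' hθ'
    rw [← hs] at d2
    rw [← hs'] at d3
    have d4 : h * |s - s'| = |θ - θ'| := by
      rw [hs, hs', ← sub_div, abs_div, abs_of_pos h0]; field_simp
    have x0 : ‖poly Y s₀ - x‖ ≤ 6 * h := by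
      have a1 := near s₀
      have a2 := N_near (y ⌊s₀⌋) (poly Y s₀) (a1.trans_lt (by linarith))
      have a3 := norm_sub_le_norm_sub_add_norm_sub (poly Y s₀) (y ⌊s₀⌋ : E) x
      rw [norm_sub_rev (y ⌊s₀⌋ : E)] at a3
      linarith
    have x1 : ∀ (t r : ℝ), |t - s₀| ≤ r → ‖poly Y t - x‖ ≤ 2 * h * r + 6 * h := fun t r ht => by
      have a1 := lip t s₀
      have a3 := norm_sub_le_norm_sub_add_norm_sub (poly Y t) (poly Y s₀) x
      nlinarith
    have err : ‖poly Y s - poly Y s' - (θ - θ') • n x‖ ≤ 6 * κ * |θ - θ'| := by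
      have a1 := glue_abs Y (h • n x) (6 * κ * h) s s' fun j hj hj' => by
        have b1 : |(j : ℝ) - s₀| ≤ 2 := by
          rw [abs_lt] at d2 d3
          have c1 : s₀ - 1 ≤ min s s' := le_min (by linarith) (by linarith)
          have c2 : max s s' ≤ s₀ + 1 := max_le (by linarith) (by linarith)
          exact abs_le.2 ⟨by linarith, by linarith⟩
        have b2 := x1 j 2 b1
        rw [poly_int] at b2
        have b3 : dist (n (y j)) (n x) < κ :=
          he (by rw [Subtype.dist_eq, dist_eq_norm]; exact b2.trans_lt (by linarith))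
        rw [dist_eq_norm] at b3
        have b4 : Y (j + 1) - Y j - h • n x
            = (Y (j + 1) - Y j - h • n (y j)) + h • (n (y j) - n x) := by module
        rw [b4]
        refine (norm_add_le _ _).trans ?_
        rw [norm_smul, Real.norm_eq_abs, abs_of_pos h0]
        nlinarith [s1 j]
      have a2 : (s - s') • h • n x = (θ - θ') • n x := by
        rw [smul_smul, hs, hs', ← sub_div, div_mul_cancel₀ _ h0.ne']
      rw [a2, mul_assoc _ h, d4] at a1
      exact a1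
    have est := N_est x (poly Y s) (poly Y s') (8 * h) (by linarith)
      ((x1 s 1 d2.le).trans (by linarith)) ((x1 s' 1 d3.le).trans (by linarith))
    have i1 : |⟪poly Y s - poly Y s', (x : E)⟫| ≤ 6 * κ * |θ - θ'| := by
      have a1 : ⟪poly Y s - poly Y s', (x : E)⟫
          = ⟪poly Y s - poly Y s' - (θ - θ') • n x, (x : E)⟫ := by
        rw [inner_sub_left _ ((θ - θ') • n x), real_inner_smul_left, real_inner_comm _ (n x), hp]
        ring
      rw [a1]
      refine (abs_real_inner_le_norm _ _).trans ?_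
      rw [norm_coe, mul_one]
      exact err
    have i2 : ‖poly Y s - poly Y s'‖ ≤ 2 * |θ - θ'| := by
      have := lip s s'
      rwa [mul_assoc, d4] at this
    have i3 : (N (poly Y s) : E) - N (poly Y s') - (θ - θ') • n x
        = ((N (poly Y s) : E) - N (poly Y s') - (poly Y s - poly Y s'))
          + (poly Y s - poly Y s' - (θ - θ') • n x) := by abel
    have i4 : 0 ≤ |θ - θ'| := abs_nonneg _
    have i5 : h * ‖poly Y s - poly Y s'‖ ≤ κ * (2 * |θ - θ'|) :=
      mul_le_mul hκ i2 (norm_nonneg _) hκ0.le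
    change ‖(N (poly Y s) : E) - N (poly Y s') - (θ - θ') • n x‖ ≤ ρ * |θ - θ'|
    rw [i3]
    refine (norm_add_le _ _).trans ?_
    nlinarith

end Pool.Agent.Lib.MP_399f8e_an.Rg
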