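import Pool.Agent.Lib.MP_399f8e_an.Rg.Norm

open Set Filter Topology Metric
open scoped RealInnerProductSpace

noncomputable section

namespace Pool.Agent.Lib.MP_399f8e_an.Rg

namespace LiftAux

/-- the sphere minus a point is homeomorphic to a vector space -/
theorem chart (v : S) : ∃ e : OpenPartialHomeomorph S (EuclideanSpace ℝ (Fin 3)),
    e.source = {v}ᶜ ∧ e.target = univ :=
  haveI : Fact (Module.finrank ℝ E = 3 + 1) := ⟨by simp⟩
  ⟨stereographic' 3 v, by simp, by simp⟩

/-- lifts exist off a point, with a prescribed value -/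
theorem lift_off (f : S → AddCircle (1 : ℝ)) (hf : Continuous f) (v a : S) (ha : a ≠ v) (r : ℝ)
    (hr : (r : AddCircle (1 : ℝ)) = f a) :
    ∃ Θ : S → ℝ, ContinuousOn Θ {v}ᶜ ∧ Θ a = r ∧
      ∀ x, x ≠ v → (Θ x : AddCircle (1 : ℝ)) = f x := by
  obtain ⟨e, hs, ht⟩ := chart v
  have hc : Continuous e.symm := by
    rw [← continuousOn_univ, ← ht]
    exact e.continuousOn_symm
  have hm : ∀ x, x ≠ v → e.symm (e x) = x := fun x hx => e.left_inv (by rw [hs]; exact hx)
  obtain ⟨G, ⟨hG1, hG2⟩, -⟩ :=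
    (AddCircle.isCoveringMap_coe (1 : ℝ)).existsUnique_continuousMap_lifts
      (⟨f ∘ e.symm, hf.comp hc⟩ : C(EuclideanSpace ℝ (Fin 3), AddCircle (1 : ℝ))) (e a) r
      (by
        show (r : AddCircle (1 : ℝ)) = f (e.symm (e a))
        rw [hm a ha, hr])
  refine ⟨G ∘ e, G.continuous.comp_continuousOn (by rw [← hs]; exact e.continuousOn), hG1,
    fun x hx => ?_⟩
  have h : (G (e x) : AddCircle (1 : ℝ)) = f (e.symm (e x)) := congrFun hG2 (e x)
  rw [hm x hx] at h
  exact h

/-- the sphere minus two points is connected -/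
theorem conn (v w : S) (hw : w ≠ v) : IsConnected ({v}ᶜ ∩ {w}ᶜ : Set S) := by
  obtain ⟨e, hs, ht⟩ := chart v
  have hc : Continuous e.symm := by
    rw [← continuousOn_univ, ← ht]
    exact e.continuousOn_symm
  have hm : ∀ x, x ≠ v → e.symm (e x) = x := fun x hx => e.left_inv (by rw [hs]; exact hx)
  have hr : ∀ y, e (e.symm y) = y := fun y => e.right_inv (by rw [ht]; trivial)
  have hv : ∀ y, e.symm y ≠ v := fun y => by
    have h := e.map_target (x := y) (by rw [ht]; trivial)
    rw [hs] at h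
    exact h
  have hrank : 1 < Module.rank ℝ (EuclideanSpace ℝ (Fin 3)) := by
    rw [← Module.finrank_eq_rank]
    simp
  have h := (isConnected_compl_singleton_of_one_lt_rank hrank (e w)).image e.symm hc.continuousOn
  have he : e.symm '' {e w}ᶜ = ({v}ᶜ ∩ {w}ᶜ : Set S) := by
    ext x
    constructor
    · rintro ⟨y, hy, rfl⟩
      refine ⟨hv y, fun hx => hy ?_⟩
      have hx' : e.symm y = w := hx
      show y = e w
      rw [← hx', hr]
    · rintro ⟨hx, hx'⟩
      refine ⟨e x, fun hy => hx' ?_, hm x hx⟩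
      have hy' : e x = e w := hy
      show x = w
      rw [← hm x hx, hy', hm w hw]
  rwa [he] at h

end LiftAux

theorem exists_lift (f : S → AddCircle (1 : ℝ)) (hf : Continuous f) :
    ∃ Θ : S → ℝ, Continuous Θ ∧ ∀ x, (Θ x : AddCircle (1 : ℝ)) = f x := by
  classical
  have hw : -pole ≠ pole := (ne_neg_of_mem_unit_sphere ℝ pole).symm
  have hconn := LiftAux.conn pole (-pole) hw
  obtain ⟨a, ha, ha'⟩ := hconn.nonempty
  obtain ⟨r, hr⟩ : ∃ r : ℝ, (r : AddCircle (1 : ℝ)) = f a := QuotientAddGroup.mk_surjective (f a)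
  obtain ⟨A, hA, hAa, hAf⟩ := LiftAux.lift_off f hf pole a ha r hr
  obtain ⟨B, hB, hBa, hBf⟩ := LiftAux.lift_off f hf (-pole) a ha' r hr
  have hAB : EqOn A B ({pole}ᶜ ∩ {-pole}ᶜ) :=
    (AddCircle.isCoveringMap_coe (1 : ℝ)).eqOn_of_comp_eqOn hconn.isPreconnected
      (hA.mono inter_subset_left) (hB.mono inter_subset_right)
      (fun x hx => (hAf x hx.1).trans (hBf x hx.2).symm) ⟨ha, ha'⟩ (hAa.trans hBa.symm)
  refine ⟨fun x => if x = pole then B x else A x, ?_, fun x => ?_⟩
  · rw [continuous_iff_continuousAt]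
    intro x
    by_cases hx : x = pole
    · have hx' : x ≠ -pole := by rw [hx]; exact hw.symm
      have hn : ({-pole}ᶜ : Set S) ∈ 𝓝 x := isOpen_compl_singleton.mem_nhds hx'
      refine (hB.continuousAt hn).congr ?_
      filter_upwards [hn] with y hy
      by_cases hyp : y = pole
      · rw [if_pos hyp]
      · rw [if_neg hyp, hAB ⟨hyp, hy⟩]
    · have hn : ({pole}ᶜ : Set S) ∈ 𝓝 x := isOpen_compl_singleton.mem_nhds hx
      refine (hA.continuousAt hn).congr ?_
      filter_upwards [hn] with y hy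
      rw [if_neg (show ¬ y = pole from hy)]
  · by_cases hx : x = pole
    · simp only [if_pos hx]
      exact hBf x (by rw [hx]; exact hw.symm)
    · simp only [if_neg hx]
      exact hAf x hx

end Pool.Agent.Lib.MP_399f8e_an.Rg
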