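import Pool.Agent.Lib.MP_399f8e_an.Rg.Norm

open Set Filter Topology Metric
open scoped RealInnerProductSpace

noncomputable section

namespace Pool.Agent.Lib.MP_399f8e_an.Rg

open scoped Manifold ContDiff

namespace AperAux

/-- every point of the unit ball of the plane is the pair of first coordinates of a point of `S` -/
theorem lift (a b : ℝ) (h : a ^ 2 + b ^ 2 ≤ 1) : ∃ y : S, (y : E) 0 = a ∧ (y : E) 1 = b := by
  refine ⟨⟨WithLp.toLp 2 ![a, b, Real.sqrt (1 - a ^ 2 - b ^ 2), 0], ?_⟩, rfl, rfl⟩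
  rw [mem_sphere_zero_iff_norm, EuclideanSpace.norm_eq, Real.sqrt_eq_one, Fin.sum_univ_four]
  have h1 : Real.sqrt (1 - a ^ 2 - b ^ 2) ^ 2 = 1 - a ^ 2 - b ^ 2 := Real.sq_sqrt (by linarith)
  simp only [Real.norm_eq_abs, sq_abs, Matrix.cons_val_zero, Matrix.cons_val_one,
    Matrix.cons_val]
  rw [h1]
  ring

end AperAux

theorem not_dense_of_per [Fact (Module.finrank ℝ E = 3 + 1)] (φ : ℝ → S → S)
    (hs : ContMDiff (𝓘(ℝ, ℝ).prod (𝓡 3)) (𝓡 3) 2 fun p : ℝ × S => φ p.1 p.2)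
    (hadd : ∀ s t x, φ (s + t) x = φ s (φ t x)) (x : S) (T : ℝ) (hT : 0 < T)
    (hx : φ T x = x) : ¬ Dense (range fun t : ℝ => φ t x) := by
  intro hd
  have h1 : ContMDiff 𝓘(ℝ, ℝ) (𝓡 3) 2 fun t : ℝ => φ t x :=
    hs.comp (f := fun t : ℝ => (t, x)) (contMDiff_id.prodMk contMDiff_const)
  have h2 : ContDiff ℝ 2 fun t : ℝ => (φ t x : E) :=
    contMDiff_iff_contDiff.1 ((contMDiff_coe_sphere (n := 3) (m := 2)).comp h1)
  have hper : Function.Periodic (fun t : ℝ => φ t x) T := fun t => by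
    simp only [hadd, hx]
  have hc : IsClosed (range fun t : ℝ => φ t x) := by
    rw [← hper.image_Icc hT 0]
    exact (isCompact_Icc.image h1.continuous).isClosed
  have hu : (range fun t : ℝ => φ t x) = univ := by
    rw [← hc.closure_eq, hd.closure_eq]
  let g : ℝ → ℝ × ℝ := fun t => ((φ t x : E) 0, (φ t x : E) 1)
  have hg : ContDiff ℝ 1 g := by
    have h3 : ∀ i : Fin 4, ContDiff ℝ 1 fun t : ℝ => (φ t x : E) i := fun i =>
      ((EuclideanSpace.proj (𝕜 := ℝ) i).contDiff.comp h2).of_le (by norm_num)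
    exact (h3 0).prodMk (h3 1)
  have hden := hg.dense_compl_range_of_finrank_lt_finrank (by simp)
  obtain ⟨p, hp, hq⟩ := hden.inter_open_nonempty (ball (0 : ℝ × ℝ) (1 / 2)) isOpen_ball
    ⟨0, mem_ball_self (by norm_num)⟩
  rw [mem_ball_zero_iff] at hp
  have ha : |p.1| < 1 / 2 := lt_of_le_of_lt (norm_fst_le p) hp
  have hb : |p.2| < 1 / 2 := lt_of_le_of_lt (norm_snd_le p) hp
  obtain ⟨y, hy0, hy1⟩ := AperAux.lift p.1 p.2 (by
    rw [abs_lt] at ha hb
    nlinarith [ha.1, ha.2, hb.1, hb.2])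
  obtain ⟨t, ht⟩ : y ∈ range fun t : ℝ => φ t x := hu ▸ mem_univ y
  refine hq ⟨t, ?_⟩
  simp only at ht
  ext
  · simp only [g, ht, hy0]
  · simp only [g, ht, hy1]

end Pool.Agent.Lib.MP_399f8e_an.Rg
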