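import Pool.Agent.Lib.MP_399f8e_an.Rg.Norm

open Set Filter Topology Metric
open scoped RealInnerProductSpace

noncomputable section

namespace Pool.Agent.Lib.MP_399f8e_an.Rg

/-- clamp to the unit interval -/
def cl (s : ℝ) : ℝ := max 0 (min s 1)

theorem cl_eq {s : ℝ} (h0 : 0 ≤ s) (h1 : s ≤ 1) : cl s = s := by
  rw [cl, min_eq_left h1, max_eq_right h0]

theorem cl_nonneg (s : ℝ) : 0 ≤ cl s := le_max_left _ _

theorem cl_le_one (s : ℝ) : cl s ≤ 1 := max_le zero_le_one (min_le_right _ _)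

theorem continuous_cl : Continuous cl := by unfold cl; fun_prop

variable (φ : ℝ → S → S) (τ σ : S → ℝ)

/-- the chord from a point to its corrected return -/
def ch (x : S) (s : ℝ) : E := (x : E) + cl s • ((φ (σ x + τ x) x : E) - x)

/-- the annulus of chords, continued by its image under the return map -/
def ann (x : S) (s : ℝ) : E :=
  if s ≤ 1 then ch φ τ σ x s
  else (φ (σ x + τ (N (ch φ τ σ x (s - 1)))) (N (ch φ τ σ x (s - 1))) : E)

theorem ch_zero (x : S) : ch φ τ σ x 0 = x := by simp [ch, cl]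

theorem ch_one (x : S) : ch φ τ σ x 1 = φ (σ x + τ x) x := by simp [ch, cl]

theorem ann_le (x : S) {s : ℝ} (h : s ≤ 1) : ann φ τ σ x s = ch φ τ σ x s := if_pos h

theorem ann_ge (x : S) {s : ℝ} (h : 1 ≤ s) : ann φ τ σ x s
    = (φ (σ x + τ (N (ch φ τ σ x (s - 1)))) (N (ch φ τ σ x (s - 1))) : E) := by
  rcases h.eq_or_lt with rfl | h
  · rw [ann_le φ τ σ x le_rfl, sub_self, ch_zero, N_coe, ch_one]
  · exact if_neg (not_le.2 h)

variable {φ τ σ} {X : S → E} {ρ d : ℝ}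

theorem ch_near (h : Corr φ X τ σ ρ d) (x : S) (s : ℝ) : ‖ch φ τ σ x s - x‖ ≤ cl s * ρ := by
  rw [ch, add_sub_cancel_left, norm_smul, Real.norm_of_nonneg (cl_nonneg s)]
  exact mul_le_mul_of_nonneg_left (h.near x) (cl_nonneg s)

theorem ch_est (h : Corr φ X τ σ ρ d) (hρ : ρ ≤ 1) {x₀ x x' : S} {n u : E} {l α s s' : ℝ}
    (hn : ‖n‖ = 1) (hl : 0 < l) (hx : ‖(x : E) - x₀‖ ≤ d) (hx' : ‖(x' : E) - x₀‖ ≤ d)
    (hc : ‖(x : E) - x' - α • n‖ ≤ ρ * |α|)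
    (hv : ‖(φ (σ x' + τ x') x' : E) - x' - l • u‖ ≤ 2 * ρ * l)
    (h0 : 0 ≤ s) (h1 : s ≤ 1) (h0' : 0 ≤ s') (h1' : s' ≤ 1) :
    ‖ch φ τ σ x s - ch φ τ σ x' s' - α • n - ((s - s') * l) • u‖
      ≤ 5 * ρ * (|α| + |s - s'| * l) := by
  have hρ0 : 0 ≤ ρ := (norm_nonneg _).trans (h.near x)
  have hxx : ‖(x : E) - x'‖ ≤ 2 * |α| := by
    have e : (x : E) - x' = ((x : E) - x' - α • n) + α • n := by abel
    rw [e]
    refine (norm_add_le _ _).trans ?_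
    rw [norm_smul, hn, Real.norm_eq_abs]
    nlinarith [abs_nonneg α]
  have hg := h.est x₀ x x' x x' hx hx' hx hx'
  have e : ch φ τ σ x s - ch φ τ σ x' s' - α • n - ((s - s') * l) • u
      = ((x : E) - x' - α • n)
        + s • ((φ (σ x + τ x) x : E) - φ (σ x' + τ x') x' - ((x : E) - x'))
        + (s - s') • ((φ (σ x' + τ x') x' : E) - x' - l • u) := by
    rw [ch, ch, cl_eq h0 h1, cl_eq h0' h1']; module
  rw [e]
  refine (norm_add₃_le).trans ?_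
  rw [norm_smul, norm_smul, Real.norm_of_nonneg h0, Real.norm_eq_abs]
  have b1 : s * ‖(φ (σ x + τ x) x : E) - φ (σ x' + τ x') x' - ((x : E) - x')‖ ≤ 4 * ρ * |α| := by
    refine (mul_le_of_le_one_left (norm_nonneg _) h1).trans (hg.trans ?_)
    nlinarith
  have b2 := mul_le_mul_of_nonneg_left hv (abs_nonneg (s - s'))
  have b3 : 0 ≤ ρ * (|s - s'| * l) := by positivity
  nlinarith

theorem ret_est (h : Corr φ X τ σ ρ d) (hρ : ρ ≤ 1 / 18) {x₀ x x' : S} {a a' n u : E}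
    {α β D : ℝ} (hn : ‖n‖ = 1) (hu : ‖u‖ = 1) (hxn : ⟪(x₀ : E), n⟫ = 0) (hxu : ⟪(x₀ : E), u⟫ = 0)
    (hx : ‖(x : E) - x₀‖ ≤ d) (hx' : ‖(x' : E) - x₀‖ ≤ d) (hxx : ‖(x : E) - x'‖ ≤ 2 * D)
    (ha : ‖a - x₀‖ ≤ min ρ (d / 2)) (ha' : ‖a' - x₀‖ ≤ min ρ (d / 2)) (hD : |α| + |β| ≤ D)
    (hw : ‖a - a' - α • n - β • u‖ ≤ 5 * ρ * D) :
    ‖(φ (σ x + τ (N a)) (N a) : E) - φ (σ x' + τ (N a')) (N a') - α • n - β • u‖
      ≤ 28 * ρ * D := by
  have hρ0 : 0 ≤ ρ := (norm_nonneg _).trans (h.near x)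
  have hD0 : 0 ≤ D := le_trans (by positivity) hD
  have m1 := min_le_left ρ (d / 2)
  have m2 := min_le_right ρ (d / 2)
  have hz : ‖(N a : E) - x₀‖ ≤ d := (N_near x₀ a (by linarith)).trans (by linarith)
  have hz' : ‖(N a' : E) - x₀‖ ≤ d := (N_near x₀ a' (by linarith)).trans (by linarith)
  have hρD : ρ * D ≤ D / 18 := by nlinarith
  have hρD0 : 0 ≤ ρ * D := by positivity
  have haa : ‖a - a'‖ ≤ 2 * D := by
    have e : a - a' = (a - a' - α • n - β • u) + α • n + β • u := by abel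
    rw [e]
    refine (norm_add₃_le).trans ?_
    rw [norm_smul, norm_smul, hn, hu, Real.norm_eq_abs, Real.norm_eq_abs]
    linarith
  have hin : |⟪a - a', (x₀ : E)⟫| ≤ 5 * ρ * D := by
    have e : ⟪a - a', (x₀ : E)⟫ = ⟪a - a' - α • n - β • u, (x₀ : E)⟫ := by
      rw [inner_sub_left (a - a' - α • n), inner_sub_left (a - a'), real_inner_smul_left,
        real_inner_smul_left, real_inner_comm, real_inner_comm (x₀ : E) n,
        real_inner_comm (x₀ : E) u, hxn, hxu]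
      ring
    rw [e]
    refine (abs_real_inner_le_norm _ _).trans ?_
    rw [norm_coe, mul_one]
    exact hw
  have hN := N_est x₀ a a' ρ (by linarith) (ha.trans m1) (ha'.trans m1)
  have hN' : ‖(N a : E) - N a' - (a - a')‖ ≤ 18 * ρ * D := by nlinarith
  have hzz : ‖(N a : E) - N a'‖ ≤ 3 * D := by
    have e : (N a : E) - N a' = ((N a : E) - N a' - (a - a')) + (a - a') := by abel
    rw [e]
    refine (norm_add_le _ _).trans ?_
    linarith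
  have hg := h.est x₀ x x' (N a) (N a') hx hx' hz hz'
  have e : (φ (σ x + τ (N a)) (N a) : E) - φ (σ x' + τ (N a')) (N a') - α • n - β • u
      = ((φ (σ x + τ (N a)) (N a) : E) - φ (σ x' + τ (N a')) (N a') - ((N a : E) - N a'))
        + ((N a : E) - N a' - (a - a')) + (a - a' - α • n - β • u) := by abel
  rw [e]
  refine (norm_add₃_le).trans ?_
  nlinarith

theorem apx_ann (hφ : IsFl φ) (hτ : Continuous τ) (h : Corr φ X τ σ ρ d) (hρ0 : 0 < ρ)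
    (hρ : ρ ≤ 1 / 18) {c : ℝ → S} (hc : Continuous c) {θ₀ s₀ δ l : ℝ} {n u : E} (hδ : 0 < δ)
    (hcv : ∀ θ θ', |θ - θ₀| < δ → |θ' - θ₀| < δ →
      ‖(c θ : E) - c θ' - (θ - θ') • n‖ ≤ ρ * |θ - θ'|)
    (hf : Frame (c θ₀) (X (c θ₀)) u n) (hl : 0 < l)
    (hv : ‖(φ (σ (c θ₀) + τ (c θ₀)) (c θ₀) : E) - c θ₀ - l • u‖ ≤ ρ * l)
    (hs0 : 0 < s₀) (hs1 : s₀ ≤ 1) :
    Apx (fun z => ann φ τ σ (c z.1) z.2) (θ₀, s₀) (c θ₀) n u l (28 * ρ) := by
  have hd := h.d_pos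
  set e := min ρ (d / 2) with he
  have he0 : 0 < e := lt_min hρ0 (by linarith)
  have m1 : e ≤ ρ := min_le_left ρ (d / 2)
  have m2 : e ≤ d / 2 := min_le_right ρ (d / 2)
  have hcE : Continuous fun θ => (c θ : E) := continuous_subtype_val.comp hc
  have hG : Continuous fun θ => (φ (σ (c θ) + τ (c θ)) (c θ) : E) - c θ := by
    refine (continuous_subtype_val.comp ?_).sub hcE
    exact hφ.cont.comp (((h.cont.comp hc).add (hτ.comp hc)).prodMk hc)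
  obtain ⟨ε₁, hε₁, k₁⟩ := Metric.continuousAt_iff.1 (hcE.continuousAt (x := θ₀)) (e / 2) (by linarith)
  obtain ⟨ε₂, hε₂, k₂⟩ := Metric.continuousAt_iff.1 (hG.continuousAt (x := θ₀)) (ρ * l) (by positivity)
  obtain ⟨ε, hε, j₁, j₂, j₃, j₄, j₅⟩ : ∃ ε : ℝ, 0 < ε ∧ ε ≤ ε₁ ∧ ε ≤ ε₂ ∧ ε ≤ δ ∧ ε ≤ s₀ ∧ ε ≤ e / 2 :=
    ⟨min (min ε₁ ε₂) (min δ (min s₀ (e / 2))), by positivity,
      (min_le_left _ _).trans (min_le_left _ _), (min_le_left _ _).trans (min_le_right _ _),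
      (min_le_right _ _).trans (min_le_left _ _),
      (min_le_right _ _).trans ((min_le_right _ _).trans (min_le_left _ _)),
      (min_le_right _ _).trans ((min_le_right _ _).trans (min_le_right _ _))⟩
  have p1 : ∀ θ, |θ - θ₀| < ε → ‖(c θ : E) - c θ₀‖ ≤ e / 2 := fun θ hθ => by
    have := k₁ (x := θ) (by rw [Real.dist_eq]; linarith)
    rw [dist_eq_norm] at this
    exact this.le
  have p1' : ∀ θ, |θ - θ₀| < ε → ‖(c θ : E) - c θ₀‖ ≤ d := fun θ hθ => by linarith [p1 θ hθ]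
  have p2 : ∀ θ, |θ - θ₀| < ε →
      ‖(φ (σ (c θ) + τ (c θ)) (c θ) : E) - c θ - l • u‖ ≤ 2 * ρ * l := fun θ hθ => by
    have := k₂ (x := θ) (by rw [Real.dist_eq]; linarith)
    rw [dist_eq_norm] at this
    have e1 : (φ (σ (c θ) + τ (c θ)) (c θ) : E) - c θ - l • u
        = (((φ (σ (c θ) + τ (c θ)) (c θ) : E) - c θ)
          - ((φ (σ (c θ₀) + τ (c θ₀)) (c θ₀) : E) - c θ₀))
          + ((φ (σ (c θ₀) + τ (c θ₀)) (c θ₀) : E) - c θ₀ - l • u) := by abel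
    rw [e1]
    refine (norm_add_le _ _).trans ?_
    linarith
  have p3 : ∀ θ s, |θ - θ₀| < ε → 0 ≤ s → s < ε → ‖ch φ τ σ (c θ) s - c θ₀‖ ≤ e := by
    intro θ s hθ h0 h1
    have e1 : ch φ τ σ (c θ) s - c θ₀ = (ch φ τ σ (c θ) s - c θ) + ((c θ : E) - c θ₀) := by abel
    rw [e1]
    refine (norm_add_le _ _).trans ?_
    have := ch_near h (c θ) s
    rw [cl_eq h0 (by linarith)] at this
    have h2 : s * ρ ≤ e / 2 := by nlinarith
    linarith [p1 θ hθ]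
  have q1 : ∀ θ θ' s s', |θ - θ₀| < ε → |θ' - θ₀| < ε → 0 ≤ s → s ≤ 1 → 0 ≤ s' → s' ≤ 1 →
      ‖ch φ τ σ (c θ) s - ch φ τ σ (c θ') s' - (θ - θ') • n - ((s - s') * l) • u‖
        ≤ 5 * ρ * (|θ - θ'| + |s - s'| * l) := fun θ θ' s s' hθ hθ' a1 a2 a3 a4 =>
    ch_est h (by linarith) hf.nn hl (p1' θ hθ) (p1' θ' hθ')
      (hcv θ θ' (by linarith) (by linarith)) (p2 θ' hθ') a1 a2 a3 a4
  have qL : ∀ θ θ' s s', |θ - θ₀| < ε → |θ' - θ₀| < ε → 0 ≤ s → s ≤ 1 → 0 ≤ s' → s' ≤ 1 →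
      ‖ann φ τ σ (c θ) s - ann φ τ σ (c θ') s' - (θ - θ') • n - ((s - s') * l) • u‖
        ≤ 28 * ρ * (|θ - θ'| + |s - s'| * l) := fun θ θ' s s' hθ hθ' a1 a2 a3 a4 => by
    rw [ann_le φ τ σ _ a2, ann_le φ τ σ _ a4]
    refine (q1 θ θ' s s' hθ hθ' a1 a2 a3 a4).trans ?_
    have : 0 ≤ ρ * (|θ - θ'| + |s - s'| * l) := by positivity
    linarith
  have qR : ∀ θ θ' s s', |θ - θ₀| < ε → |θ' - θ₀| < ε → 1 ≤ s → s - 1 < ε → 1 ≤ s' → s' - 1 < ε →
      ‖ann φ τ σ (c θ) s - ann φ τ σ (c θ') s' - (θ - θ') • n - ((s - s') * l) • u‖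
        ≤ 28 * ρ * (|θ - θ'| + |s - s'| * l) := fun θ θ' s s' hθ hθ' a1 a2 a3 a4 => by
    rw [ann_ge φ τ σ _ a1, ann_ge φ τ σ _ a3]
    have hw := q1 θ θ' (s - 1) (s' - 1) hθ hθ' (by linarith) (by linarith) (by linarith)
      (by linarith)
    rw [sub_sub_sub_cancel_right] at hw
    refine ret_est h hρ hf.nn hf.nu hf.xn hf.xu (p1' θ hθ) (p1' θ' hθ') ?_
      (p3 θ _ hθ (by linarith) a2) (p3 θ' _ hθ' (by linarith) a4) ?_ hw
    · have e1 : (c θ : E) - c θ' = ((c θ : E) - c θ' - (θ - θ') • n) + (θ - θ') • n := by abel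
      rw [e1]
      refine (norm_add_le _ _).trans ?_
      rw [norm_smul, hf.nn, Real.norm_eq_abs]
      have := hcv θ θ' (by linarith) (by linarith)
      have h2 : 0 ≤ |s - s'| * l := by positivity
      nlinarith [abs_nonneg (θ - θ')]
    · rw [abs_mul, abs_of_pos hl]
  have qM : ∀ θ θ' s s', |θ - θ₀| < ε → |θ' - θ₀| < ε → 0 ≤ s → s ≤ 1 → 1 ≤ s' → s' - 1 < ε →
      ‖ann φ τ σ (c θ) s - ann φ τ σ (c θ') s' - (θ - θ') • n - ((s - s') * l) • u‖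
        ≤ 28 * ρ * (|θ - θ'| + |s - s'| * l) := fun θ θ' s s' hθ hθ' a1 a2 a3 a4 => by
    have b1 := qL θ θ s 1 hθ hθ a1 a2 zero_le_one le_rfl
    have b2 := qR θ θ' 1 s' hθ hθ' le_rfl (by linarith) a3 a4
    have e1 : ann φ τ σ (c θ) s - ann φ τ σ (c θ') s' - (θ - θ') • n - ((s - s') * l) • u
        = (ann φ τ σ (c θ) s - ann φ τ σ (c θ) 1 - (θ - θ) • n - ((s - 1) * l) • u)
          + (ann φ τ σ (c θ) 1 - ann φ τ σ (c θ') s' - (θ - θ') • n - ((1 - s') * l) • u) := by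
      module
    rw [e1]
    refine (norm_add_le _ _).trans ?_
    rw [abs_of_nonpos (by linarith : s - s' ≤ 0)]
    rw [abs_of_nonpos (by linarith : s - 1 ≤ 0), sub_self, abs_zero] at b1
    rw [abs_of_nonpos (by linarith : 1 - s' ≤ 0)] at b2
    rw [sub_self]
    linarith
  refine ⟨{z | |z.1 - θ₀| < ε ∧ |z.2 - s₀| < ε}, ?_, ?_, ?_⟩
  · refine IsOpen.mem_nhds ?_ (by simp [hε])
    have o1 : IsOpen {z : ℝ × ℝ | |z.1 - θ₀| < ε} := isOpen_lt (by fun_prop) continuous_const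
    have o2 : IsOpen {z : ℝ × ℝ | |z.2 - s₀| < ε} := isOpen_lt (by fun_prop) continuous_const
    exact o1.inter o2
  · rintro ⟨θ, s⟩ ⟨hθ, hs⟩
    have hs' := abs_lt.1 hs
    dsimp only at hθ hs' ⊢
    rcases le_total s 1 with h1 | h1
    · rw [ann_le φ τ σ _ h1]
      have e1 : ch φ τ σ (c θ) s - c θ₀ = (ch φ τ σ (c θ) s - c θ) + ((c θ : E) - c θ₀) := by abel
      rw [e1]
      refine (norm_add_le _ _).trans ?_
      have := ch_near h (c θ) s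
      have h2 : cl s * ρ ≤ ρ := mul_le_of_le_one_left hρ0.le (cl_le_one s)
      linarith [p1 θ hθ]
    · rw [ann_ge φ τ σ _ h1]
      have ha := p3 θ (s - 1) hθ (by linarith) (by linarith)
      have hz := N_near (c θ₀) (ch φ τ σ (c θ) (s - 1)) (by linarith)
      set z := N (ch φ τ σ (c θ) (s - 1))
      have hg := h.est (c θ₀) (c θ) (c θ₀) z (c θ₀) (p1' θ hθ) (by simp [hd.le]) (by linarith)
        (by simp [hd.le])
      have e1 : (φ (σ (c θ) + τ z) z : E) - c θ₀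
          = ((φ (σ (c θ) + τ z) z : E) - φ (σ (c θ₀) + τ (c θ₀)) (c θ₀) - ((z : E) - c θ₀))
            + ((φ (σ (c θ₀) + τ (c θ₀)) (c θ₀) : E) - c θ₀) + ((z : E) - c θ₀) := by abel
      rw [e1]
      refine (norm_add₃_le).trans ?_
      have h3 := h.near (c θ₀)
      have h4 := p1 θ hθ
      have h5 : ρ * (‖(z : E) - c θ₀‖ + ‖(c θ : E) - c θ₀‖) ≤ ρ * 1 :=
        mul_le_mul_of_nonneg_left (by linarith) hρ0.le
      linarith
  · rintro ⟨θ, s⟩ ⟨hθ, hs⟩ ⟨θ', s'⟩ ⟨hθ', hs'⟩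
    have k := abs_lt.1 hs
    have k' := abs_lt.1 hs'
    dsimp only at hθ hθ' k k' ⊢
    rcases le_total s 1 with h1 | h1 <;> rcases le_total s' 1 with h1' | h1'
    · exact qL θ θ' s s' hθ hθ' (by linarith) h1 (by linarith) h1'
    · exact qM θ θ' s s' hθ hθ' (by linarith) h1 h1' (by linarith)
    · have := qM θ' θ s' s hθ' hθ (by linarith) h1' h1 (by linarith)
      rw [abs_sub_comm θ' θ, abs_sub_comm s' s, ← norm_neg] at this
      refine le_of_eq_of_le ?_ this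
      congr 1
      module
    · exact qR θ θ' s s' hθ hθ' h1 (by linarith) h1' (by linarith)

end Pool.Agent.Lib.MP_399f8e_an.Rg
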