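import Pool.Agent.Lib.MP_399f8e_an.Rg.Norm

open Set Filter Topology Metric
open scoped RealInnerProductSpace

noncomputable section

namespace Pool.Agent.Lib.MP_399f8e_an.Rg

namespace CrossAux

lemma inn (a b : E) : ⟪a, b⟫ = a 0 * b 0 + a 1 * b 1 + a 2 * b 2 + a 3 * b 3 := by
  simp [PiLp.inner_apply, Fin.sum_univ_four]
  ring

/-- a three by three minor -/
def mn (a b c : E) (i j k : Fin 4) : ℝ :=
  a i * (b j * c k - b k * c j) - a j * (b i * c k - b k * c i) + a k * (b i * c j - b j * c i)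

/-- the cross product of three vectors -/
def cr (a b c : E) : E :=
  WithLp.toLp 2 ![mn a b c 1 2 3, -mn a b c 0 2 3, mn a b c 0 1 3, -mn a b c 0 1 2]

lemma cr0 (a b c : E) : cr a b c 0 = mn a b c 1 2 3 := rfl
lemma cr1 (a b c : E) : cr a b c 1 = -mn a b c 0 2 3 := rfl
lemma cr2 (a b c : E) : cr a b c 2 = mn a b c 0 1 3 := rfl
lemma cr3 (a b c : E) : cr a b c 3 = -mn a b c 0 1 2 := rfl

lemma cr_a (a b c : E) : ⟪a, cr a b c⟫ = 0 := by
  rw [inn, cr0, cr1, cr2, cr3]; unfold mn; ring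

lemma cr_b (a b c : E) : ⟪b, cr a b c⟫ = 0 := by
  rw [inn, cr0, cr1, cr2, cr3]; unfold mn; ring

lemma cr_c (a b c : E) : ⟪c, cr a b c⟫ = 0 := by
  rw [inn, cr0, cr1, cr2, cr3]; unfold mn; ring

lemma gram (a b c : E) : ⟪cr a b c, cr a b c⟫ =
    ⟪a, a⟫ * (⟪b, b⟫ * ⟪c, c⟫ - ⟪b, c⟫ * ⟪b, c⟫) - ⟪a, b⟫ * (⟪a, b⟫ * ⟪c, c⟫ - ⟪b, c⟫ * ⟪a, c⟫)
      + ⟪a, c⟫ * (⟪a, b⟫ * ⟪b, c⟫ - ⟪b, b⟫ * ⟪a, c⟫) := by
  simp only [inn, cr0, cr1, cr2, cr3]; unfold mn; ring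

lemma cr_ne {a b c : E} (ha : a ≠ 0) (hb : b ≠ 0) (hc : c ≠ 0) (hab : ⟪a, b⟫ = 0)
    (hac : ⟪a, c⟫ = 0) (hbc : ⟪b, c⟫ = 0) : cr a b c ≠ 0 := by
  intro h
  have g := gram a b c
  rw [h, hab, hac, hbc, inner_zero_left] at g
  have h1 : (⟪a, a⟫ : ℝ) ≠ 0 := inner_self_ne_zero.2 ha
  have h2 : (⟪b, b⟫ : ℝ) ≠ 0 := inner_self_ne_zero.2 hb
  have h3 : (⟪c, c⟫ : ℝ) ≠ 0 := inner_self_ne_zero.2 hc
  exact mul_ne_zero h1 (mul_ne_zero h2 h3) (by linear_combination -g)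

lemma continuous_cr {a b c : S → E} (ha : Continuous a) (hb : Continuous b) (hc : Continuous c) :
    Continuous fun x => cr (a x) (b x) (c x) := by
  have hm : ∀ i j k, Continuous fun x => mn (a x) (b x) (c x) i j k := by
    intro i j k
    unfold mn
    fun_prop
  refine (PiLp.continuous_toLp 2 _).comp (continuous_pi fun i => ?_)
  fin_cases i
  · exact hm 1 2 3
  · exact (hm 0 2 3).neg
  · exact hm 0 1 3
  · exact (hm 0 1 2).neg

/-- the part of `y - x` orthogonal to `x` -/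
def ww (x y : E) : E := y - x - (⟪y - x, x⟫ : ℝ) • x

lemma inner_v (x y : S) : ⟪(y : E) - x, (x : E)⟫ = -(‖(y : E) - x‖ ^ 2 / 2) := by
  rw [norm_sub_sq_real, inner_sub_left, real_inner_self_eq_norm_sq, norm_coe, norm_coe]
  ring

lemma x_ww (x y : S) : ⟪(x : E), ww x y⟫ = 0 := by
  unfold ww
  rw [inner_sub_right, inner_smul_right, real_inner_self_eq_norm_sq, norm_coe, real_inner_comm]
  ring

lemma norm_ww (x y : S) (h : ‖(y : E) - x‖ ≤ 1) : ‖(y : E) - x‖ / 2 ≤ ‖ww x y‖ := by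
  have h1 : ‖(y : E) - x‖ ≤ ‖ww x y‖ + ‖(⟪(y : E) - x, (x : E)⟫ : ℝ) • (x : E)‖ := by
    refine le_trans (le_of_eq ?_) (norm_add_le _ _)
    unfold ww
    rw [sub_add_cancel]
  rw [norm_smul, norm_coe, inner_v, norm_neg, Real.norm_of_nonneg (by positivity)] at h1
  nlinarith [norm_nonneg ((y : E) - x)]

end CrossAux

open CrossAux in
theorem exists_frame (X : S → E) (G : S → S) (hX : Continuous X) (hG : Continuous G)
    (hp : ∀ x : S, ⟪(x : E), X x⟫ = 0) (h0 : ∀ x, X x ≠ 0) (hne : ∀ x, G x ≠ x) (ρ : ℝ)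
    (hρ : ρ ≤ 1) (hnear : ∀ x, ‖(G x : E) - x‖ ≤ ρ) (ho : ∀ x, ⟪(G x : E) - x, X x⟫ = 0) :
    ∃ (u n : S → E) (l : S → ℝ), Continuous n ∧ ∀ x : S, Frame x (X x) (u x) (n x) ∧ 0 < l x ∧
      ‖(G x : E) - x - l x • u x‖ ≤ ρ * l x := by
  have hv : ∀ x : S, 0 < ‖(G x : E) - x‖ := fun x =>
    norm_pos_iff.2 (sub_ne_zero.2 fun h => hne x (Subtype.ext h))
  have hl : ∀ x : S, ‖(G x : E) - x‖ / 2 ≤ ‖ww x (G x)‖ := fun x =>
    norm_ww x (G x) ((hnear x).trans hρ)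
  have hl0 : ∀ x : S, 0 < ‖ww x (G x)‖ := fun x => lt_of_lt_of_le (half_pos (hv x)) (hl x)
  have hXw : ∀ x : S, ⟪X x, ww x (G x)⟫ = 0 := by
    intro x
    unfold ww
    rw [inner_sub_right, inner_smul_right, real_inner_comm, ho x, real_inner_comm (x : E) (X x),
      hp x]
    ring
  have hx0 : ∀ x : S, (x : E) ≠ 0 := fun x => norm_ne_zero_iff.1 (by rw [norm_coe]; norm_num)
  have hc0 : ∀ x : S, cr x (X x) (ww x (G x)) ≠ 0 := fun x =>
    cr_ne (hx0 x) (h0 x) (norm_pos_iff.1 (hl0 x)) (hp x) (x_ww x (G x)) (hXw x)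
  have hwc : Continuous fun x : S => ww x (G x) := by
    unfold ww
    fun_prop
  have hcc : Continuous fun x : S => cr x (X x) (ww x (G x)) :=
    continuous_cr continuous_subtype_val hX hwc
  refine ⟨fun x => ‖ww x (G x)‖⁻¹ • ww x (G x),
    fun x => ‖cr x (X x) (ww x (G x))‖⁻¹ • cr x (X x) (ww x (G x)), fun x => ‖ww x (G x)‖,
    (hcc.norm.inv₀ fun x => norm_ne_zero_iff.2 (hc0 x)).smul hcc, fun x => ⟨?_, hl0 x, ?_⟩⟩
  · refine ⟨?_, ?_, ?_, ?_, ?_, ?_, ?_⟩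
    · rw [norm_smul, norm_inv, norm_norm, inv_mul_cancel₀ (hl0 x).ne']
    · rw [norm_smul, norm_inv, norm_norm, inv_mul_cancel₀ (norm_ne_zero_iff.2 (hc0 x))]
    · rw [inner_smul_right, x_ww, mul_zero]
    · rw [inner_smul_right, cr_a, mul_zero]
    · rw [inner_smul_right, hXw, mul_zero]
    · rw [inner_smul_right, cr_b, mul_zero]
    · rw [inner_smul_right, inner_smul_left, cr_c, mul_zero, mul_zero]
  · have e : (G x : E) - x - ‖ww x (G x)‖ • ‖ww x (G x)‖⁻¹ • ww x (G x) =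
        (⟪(G x : E) - x, (x : E)⟫ : ℝ) • (x : E) := by
      rw [smul_smul, mul_inv_cancel₀ (hl0 x).ne', one_smul]
      unfold ww
      abel
    rw [e, norm_smul, norm_coe, inner_v, norm_neg, Real.norm_of_nonneg (by positivity)]
    have h1 := hl x
    have h2 := hv x
    have h3 := hnear x
    nlinarith

end Pool.Agent.Lib.MP_399f8e_an.Rg
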