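import Mathlib

/-!
Working definitions for rigid flows on the three-sphere (none of them occurs in the final statement).
-/

open Set Filter Topology Metric
open scoped RealInnerProductSpace

noncomputable section

namespace Pool.Agent.Lib.MP_399f8e_an.Rg

/-- the ambient space -/
abbrev E : Type := EuclideanSpace ℝ (Fin 4)

/-- the three-sphere -/
abbrev S : Type := Metric.sphere (0 : E) 1

/-- a base point -/
def pole : S := ⟨EuclideanSpace.single 0 1, by simp⟩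

/-- radial projection -/
def N (y : E) : S :=
  open Classical in
  if h : y = 0 then pole else ⟨‖y‖⁻¹ • y, by simp [norm_smul, h]⟩

/-- a continuous flow -/
structure IsFl (φ : ℝ → S → S) : Prop where
  cont : Continuous fun p : ℝ × S => φ p.1 p.2
  zero : ∀ x, φ 0 x = x
  add : ∀ s t x, φ (s + t) x = φ s (φ t x)

/-- homogeneous extension of the flow -/
def hext (φ : ℝ → S → S) (t : ℝ) (y : E) : E := ‖y‖ • (φ t (N y) : E)

/-- what is used of a smooth flow without fixed points, `X` being its vector field -/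
structure FD (φ : ℝ → S → S) (X : S → E) (m M L : ℝ) : Prop extends IsFl φ where
  perp : ∀ x : S, ⟪(x : E), X x⟫ = 0
  m_pos : 0 < m
  low : ∀ x, m ≤ ‖X x‖
  up : ∀ x, ‖X x‖ ≤ M
  L_nonneg : 0 ≤ L
  lip : ∀ x y : S, ‖X x - X y‖ ≤ L * ‖(x : E) - y‖
  unif : ∀ κ : ℝ, 0 < κ → ∃ δ : ℝ, 0 < δ ∧ ∀ (x : S) (y y' : E) (t t' : ℝ),
    ‖y - x‖ ≤ δ → ‖y' - x‖ ≤ δ → |t| ≤ δ → |t'| ≤ δ →
      ‖hext φ t y - hext φ t' y' - (y - y') - (t - t') • X x‖ ≤ κ * (‖y - y'‖ + |t - t'|)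

/-- the return map with return time `τ` is `η`-close to the identity -/
structure Close (φ : ℝ → S → S) (τ : S → ℝ) (η : ℝ) : Prop where
  cont : Continuous τ
  one_le : ∀ x, 1 ≤ τ x
  near : ∀ x, ‖(φ (τ x) x : E) - x‖ ≤ η
  lip : ∀ x y, ‖((φ (τ x) x : E) - x) - ((φ (τ y) y : E) - y)‖ ≤ η * ‖(x : E) - y‖

/-- the corrected return time -/
structure Corr (φ : ℝ → S → S) (X : S → E) (τ σ : S → ℝ) (ρ d : ℝ) : Prop where
  cont : Continuous σ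
  small : ∀ x, |σ x| ≤ 1 / 2
  orth : ∀ x, ⟪(φ (σ x + τ x) x : E) - x, X x⟫ = 0
  near : ∀ x, ‖(φ (σ x + τ x) x : E) - x‖ ≤ ρ
  d_pos : 0 < d
  est : ∀ x₀ x x' z z' : S, ‖(x : E) - x₀‖ ≤ d → ‖(x' : E) - x₀‖ ≤ d → ‖(z : E) - x₀‖ ≤ d →
    ‖(z' : E) - x₀‖ ≤ d →
      ‖(φ (σ x + τ z) z : E) - φ (σ x' + τ z') z' - ((z : E) - z')‖
        ≤ ρ * (‖(z : E) - z'‖ + ‖(x : E) - x'‖)

/-- `x, w, u, n` are pairwise orthogonal and `u, n` are unit vectors -/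
structure Frame (x w u n : E) : Prop where
  nu : ‖u‖ = 1
  nn : ‖n‖ = 1
  xu : ⟪x, u⟫ = 0
  xn : ⟪x, n⟫ = 0
  wu : ⟪w, u⟫ = 0
  wn : ⟪w, n⟫ = 0
  un : ⟪u, n⟫ = 0

/-- near `z₀` the map `a` is, up to the error `ρ`, the linear map `(θ, s) ↦ θ n + s l u` -/
def Apx (a : ℝ × ℝ → E) (z₀ : ℝ × ℝ) (x n u : E) (l ρ : ℝ) : Prop :=
  ∃ U ∈ 𝓝 z₀, (∀ z ∈ U, ‖a z - x‖ ≤ ρ) ∧ ∀ z ∈ U, ∀ z' ∈ U,
    ‖a z - a z' - (z.1 - z'.1) • n - ((z.2 - z'.2) * l) • u‖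
      ≤ ρ * (|z.1 - z'.1| + |z.2 - z'.2| * l)

/-- locally injective and open at a point -/
def Nice {A B : Type} [TopologicalSpace A] [TopologicalSpace B] (f : A → B) (z : A) : Prop :=
  (∃ U ∈ 𝓝 z, InjOn f U) ∧ 𝓝 (f z) ≤ map f (𝓝 z)

end Pool.Agent.Lib.MP_399f8e_an.Rg
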