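import Pool.Agent.Lib.MP_399f8e_an.Rg.Norm

open Set Filter Topology Metric
open scoped RealInnerProductSpace NNReal

noncomputable section

namespace Pool.Agent.Lib.MP_399f8e_an.Rg

namespace LocAux

/-- coordinates `((θ, b), (t, r))` -/
abbrev W : Type := (ℝ × ℝ) × (ℝ × ℝ)

/-- the linear model -/
def Lm (n u v x : E) : W →L[ℝ] E :=
  LinearMap.toContinuousLinearMap
    { toFun := fun p => p.1.1 • n + p.1.2 • u + p.2.1 • v + p.2.2 • x
      map_add' := fun p q => by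
        simp only [Prod.fst_add, Prod.snd_add, add_smul]; abel
      map_smul' := fun c p => by
        simp only [Prod.smul_fst, Prod.smul_snd, smul_eq_mul, RingHom.id_apply, smul_add,
          mul_smul] }

theorem Lm_apply (n u v x : E) (p : W) :
    Lm n u v x p = p.1.1 • n + p.1.2 • u + p.2.1 • v + p.2.2 • x := rfl

theorem c11 (p : W) : |p.1.1| ≤ ‖p‖ := (norm_fst_le p.1).trans (norm_fst_le p)
theorem c12 (p : W) : |p.1.2| ≤ ‖p‖ := (norm_snd_le p.1).trans (norm_fst_le p)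
theorem c21 (p : W) : |p.2.1| ≤ ‖p‖ := (norm_fst_le p.2).trans (norm_snd_le p)
theorem c22 (p : W) : |p.2.2| ≤ ‖p‖ := (norm_snd_le p.2).trans (norm_snd_le p)

theorem Lm_low {x v u n : E} {m : ℝ} (hF : Frame x v u n) (hx : ‖x‖ = 1) (hxv : ⟪x, v⟫ = 0)
    (hm : 0 < m) (hv : m ≤ ‖v‖) (p : W) : min 1 m * ‖p‖ ≤ ‖Lm n u v x p‖ := by
  set y := Lm n u v x p with hy
  have hy' : y = p.1.1 • n + p.1.2 • u + p.2.1 • v + p.2.2 • x := rfl
  have nn : ⟪n, n⟫ = (1 : ℝ) := by rw [real_inner_self_eq_norm_sq, hF.nn]; norm_num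
  have uu : ⟪u, u⟫ = (1 : ℝ) := by rw [real_inner_self_eq_norm_sq, hF.nu]; norm_num
  have xx : ⟪x, x⟫ = (1 : ℝ) := by rw [real_inner_self_eq_norm_sq, hx]; norm_num
  have vv : ⟪v, v⟫ = ‖v‖ ^ 2 := real_inner_self_eq_norm_sq v
  have nu : ⟪n, u⟫ = (0 : ℝ) := by rw [real_inner_comm]; exact hF.un
  have nv : ⟪n, v⟫ = (0 : ℝ) := by rw [real_inner_comm]; exact hF.wn
  have nx : ⟪n, x⟫ = (0 : ℝ) := by rw [real_inner_comm]; exact hF.xn
  have uv : ⟪u, v⟫ = (0 : ℝ) := by rw [real_inner_comm]; exact hF.wu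
  have ux : ⟪u, x⟫ = (0 : ℝ) := by rw [real_inner_comm]; exact hF.xu
  have vx : ⟪v, x⟫ = (0 : ℝ) := by rw [real_inner_comm]; exact hxv
  have e1 : ⟪y, n⟫ = p.1.1 := by
    rw [hy']; simp only [inner_add_left, real_inner_smul_left, nn, hF.un, hF.wn, hF.xn]; ring
  have e2 : ⟪y, u⟫ = p.1.2 := by
    rw [hy']; simp only [inner_add_left, real_inner_smul_left, nu, uu, hF.wu, hF.xu]; ring
  have e3 : ⟪y, v⟫ = p.2.1 * ‖v‖ ^ 2 := by
    rw [hy']; simp only [inner_add_left, real_inner_smul_left, nv, uv, vv, hxv]; ring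
  have e4 : ⟪y, x⟫ = p.2.2 := by
    rw [hy']; simp only [inner_add_left, real_inner_smul_left, nx, ux, vx, xx]; ring
  have b1 : |p.1.1| ≤ ‖y‖ := by
    have := abs_real_inner_le_norm y n; rwa [e1, hF.nn, mul_one] at this
  have b2 : |p.1.2| ≤ ‖y‖ := by
    have := abs_real_inner_le_norm y u; rwa [e2, hF.nu, mul_one] at this
  have b4 : |p.2.2| ≤ ‖y‖ := by
    have := abs_real_inner_le_norm y x; rwa [e4, hx, mul_one] at this
  have hv0 : 0 < ‖v‖ := hm.trans_le hv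
  have b3 : m * |p.2.1| ≤ ‖y‖ := by
    have h1 := abs_real_inner_le_norm y v
    rw [e3, abs_mul, abs_of_nonneg (sq_nonneg ‖v‖)] at h1
    have h2 : |p.2.1| * ‖v‖ ≤ ‖y‖ := by
      apply le_of_mul_le_mul_right _ hv0
      calc |p.2.1| * ‖v‖ * ‖v‖ = |p.2.1| * ‖v‖ ^ 2 := by ring
        _ ≤ _ := h1
    calc m * |p.2.1| ≤ ‖v‖ * |p.2.1| := by gcongr
      _ = |p.2.1| * ‖v‖ := mul_comm _ _
      _ ≤ _ := h2
  have hμ : 0 < min 1 m := lt_min one_pos hm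
  have k : ∀ s : ℝ, |s| ≤ ‖y‖ → min 1 m * |s| ≤ ‖y‖ := fun s hs =>
    (mul_le_of_le_one_left (abs_nonneg s) (min_le_left _ _)).trans hs
  have k3 : min 1 m * |p.2.1| ≤ ‖y‖ :=
    (mul_le_mul_of_nonneg_right (min_le_right _ _) (abs_nonneg _)).trans b3
  have hn : ‖p‖ = max (max |p.1.1| |p.1.2|) (max |p.2.1| |p.2.2|) := rfl
  rw [hn, mul_max_of_nonneg _ _ hμ.le, mul_max_of_nonneg _ _ hμ.le, mul_max_of_nonneg _ _ hμ.le]
  exact max_le (max_le (k _ b1) (k _ b2)) (max_le k3 (k _ b4))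

theorem surj_of_low {A : W →L[ℝ] E} {μ : ℝ} (hμ : 0 < μ) (h : ∀ p, μ * ‖p‖ ≤ ‖A p‖) :
    Function.Surjective A := by
  have hi : Function.Injective (A : W →ₗ[ℝ] E) := by
    refine (injective_iff_map_eq_zero _).2 fun p hp => ?_
    have h1 := h p
    have hp' : A p = 0 := hp
    rw [hp', norm_zero] at h1
    have : ‖p‖ ≤ 0 := by
      by_contra hc
      push Not at hc
      exact absurd h1 (not_le.2 (mul_pos hμ hc))
    exact norm_le_zero_iff.1 this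
  have hd : Module.finrank ℝ W = Module.finrank ℝ E := by simp [Module.finrank_prod]
  exact (LinearMap.injective_iff_surjective_of_finrank_eq_finrank hd).1 hi

/-- a map that is `μ / 2`-close to a linear map bounded below by `μ` is open at the point -/
theorem map_eq {A : W →L[ℝ] E} {μ : ℝ} (hμ : 0 < μ) (h : ∀ p, μ * ‖p‖ ≤ ‖A p‖) {Ψ : W → E}
    {s : Set W} {w : W} (hs : s ∈ 𝓝 w)
    (he : ∀ p ∈ s, ∀ q ∈ s, ‖Ψ p - Ψ q - A (p - q)‖ ≤ μ / 2 * ‖p - q‖) :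
    map Ψ (𝓝 w) = 𝓝 (Ψ w) := by
  have hsur := surj_of_low hμ h
  let R : A.NonlinearRightInverse :=
    { toFun := fun y => (hsur y).choose
      nnnorm := ⟨μ⁻¹, by positivity⟩
      bound' := fun y => by
        have h1 := h (hsur y).choose
        rw [(hsur y).choose_spec] at h1
        change _ ≤ μ⁻¹ * ‖y‖
        rw [← div_eq_inv_mul, le_div_iff₀ hμ, mul_comm]
        exact h1
      right_inv' := fun y => (hsur y).choose_spec }
  have ha : ApproximatesLinearOn Ψ A s (⟨μ / 2, by positivity⟩ : ℝ≥0) := he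
  refine ha.map_nhds_eq R hs (Or.inr ?_)
  rw [← NNReal.coe_lt_coe, NNReal.coe_inv]
  change μ / 2 < (μ⁻¹)⁻¹
  rw [inv_inv]; linarith

/-- the estimate on the scaled points -/
theorem est {x n u a a' : E} {ρ r r' θ b D : ℝ} (hx : ‖x‖ = 1) (hn : ‖n‖ = 1) (hu : ‖u‖ = 1)
    (hρ : 0 < ρ) (hρ8 : ρ ≤ 1 / 8) (ha' : ‖a' - x‖ ≤ ρ) (hr : |r - 1| ≤ 2 * ρ)
    (hθ : |θ| ≤ D) (hb : |b| ≤ D) (hrr : |r - r'| ≤ D)
    (he : ‖a - a' - θ • n - b • u‖ ≤ ρ * (|θ| + |b|)) :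
    ‖r • a - r' • a' - (θ • n + b • u + (r - r') • x)‖ ≤ 9 * ρ * D ∧
      ‖r • a - r' • a'‖ ≤ 5 * D := by
  have hD : 0 ≤ D := (abs_nonneg _).trans hθ
  have hρD : ρ * D ≤ 1 / 8 * D := by gcongr
  have e2 : ‖a - a' - θ • n - b • u‖ ≤ 2 * ρ * D := by
    calc _ ≤ ρ * (|θ| + |b|) := he
      _ ≤ ρ * (D + D) := by gcongr
      _ = _ := by ring
  have n1 : ‖θ • n‖ ≤ D := by rw [norm_smul, hn, mul_one]; exact hθ
  have n2 : ‖b • u‖ ≤ D := by rw [norm_smul, hu, mul_one]; exact hb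
  have n3 : ‖(r - r') • x‖ ≤ D := by rw [norm_smul, hx, mul_one]; exact hrr
  have e3 : ‖a - a'‖ ≤ 9 / 4 * D := by
    have : a - a' = (a - a' - θ • n - b • u) + θ • n + b • u := by abel
    rw [this]
    have := norm_add₃_le (a := a - a' - θ • n - b • u) (b := θ • n) (c := b • u)
    linarith
  have e4 : ‖(r - 1) • (a - a')‖ ≤ 2 * ρ * (9 / 4 * D) := by
    rw [norm_smul, Real.norm_eq_abs]; gcongr
  have e5 : ‖(r - r') • (a' - x)‖ ≤ D * ρ := by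
    rw [norm_smul, Real.norm_eq_abs]; gcongr
  have id1 : r • a - r' • a' - (θ • n + b • u + (r - r') • x)
      = (a - a' - θ • n - b • u) + (r - 1) • (a - a') + (r - r') • (a' - x) := by
    module
  have f1 : ‖r • a - r' • a' - (θ • n + b • u + (r - r') • x)‖ ≤ 15 / 2 * (ρ * D) := by
    rw [id1]
    have := norm_add₃_le (a := a - a' - θ • n - b • u) (b := (r - 1) • (a - a'))
      (c := (r - r') • (a' - x))
    linarith
  have hρD0 : 0 ≤ ρ * D := mul_nonneg hρ.le hD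
  refine ⟨by linarith, ?_⟩
  have id2 : r • a - r' • a' = (r • a - r' • a' - (θ • n + b • u + (r - r') • x))
      + (θ • n + b • u + (r - r') • x) := by abel
  have t1 := norm_add_le (r • a - r' • a' - (θ • n + b • u + (r - r') • x))
    (θ • n + b • u + (r - r') • x)
  have t2 := norm_add₃_le (a := θ • n) (b := b • u) (c := (r - r') • x)
  rw [← id2] at t1
  linarith

theorem near {x a : E} {ρ r : ℝ} (hx : ‖x‖ = 1) (hρ : 0 < ρ) (hρ8 : ρ ≤ 1 / 8)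
    (ha : ‖a - x‖ ≤ ρ) (hr : |r - 1| ≤ 2 * ρ) : ‖r • a - x‖ ≤ 4 * ρ := by
  have h1 : ‖a‖ ≤ 9 / 8 := by
    have := norm_add_le (a - x) x
    rw [sub_add_cancel, hx] at this
    linarith
  have h2 : ‖(r - 1) • a‖ ≤ 2 * ρ * (9 / 8) := by
    rw [norm_smul, Real.norm_eq_abs]; gcongr
  have h3 : r • a - x = (r - 1) • a + (a - x) := by module
  have h4 := norm_add_le ((r - 1) • a) (a - x)
  rw [← h3] at h4
  linarith

theorem inv_near {x a : E} {ρ : ℝ} (hx : ‖x‖ = 1) (hρ8 : ρ ≤ 1 / 8)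
    (ha : ‖a - x‖ ≤ ρ) : |‖a‖⁻¹ - 1| ≤ 2 * ρ := by
  have h1 := (abs_norm_sub_norm_le a x).trans ha
  rw [hx] at h1
  have h2 := abs_le.1 h1
  have h0 : 0 < ‖a‖ := by linarith [h2.1]
  have h3 : ‖a‖⁻¹ - 1 = -(‖a‖ - 1) * ‖a‖⁻¹ := by field_simp; ring
  have h4 : ‖a‖⁻¹ ≤ 2 := by
    rw [inv_le_comm₀ h0 two_pos]; linarith [h2.1]
  rw [h3, abs_mul, abs_neg, abs_of_pos (inv_pos.2 h0), mul_comm]
  gcongr

end LocAux

open LocAux in
theorem nice_loc {φ : ℝ → S → S} {X : S → E} {m M L : ℝ} (h : FD φ X m M L) :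
    ∃ ρ : ℝ, 0 < ρ ∧ ∀ (x : S) (u n : E) (l : ℝ) (a : ℝ × ℝ → E) (z₀ : ℝ × ℝ),
      Frame x (X x) u n → 0 < l → Apx a z₀ x n u l ρ →
        Nice (fun w : (ℝ × ℝ) × ℝ => φ w.2 (N (a w.1))) (z₀, 0) := by
  set μ : ℝ := min 1 m with hμdef
  have hμ : 0 < μ := lt_min one_pos h.m_pos
  obtain ⟨δ, hδ, hun⟩ := h.unif (μ / 40) (by positivity)
  set ρ : ℝ := min (μ / 40) (min (δ / 4) (1 / 8)) with hρdef
  have hρ : 0 < ρ := lt_min (by positivity) (lt_min (by positivity) (by norm_num))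
  have hρμ : ρ ≤ μ / 40 := min_le_left _ _
  have hρδ : ρ ≤ δ / 4 := (min_le_right _ _).trans (min_le_left _ _)
  have hρ8 : ρ ≤ 1 / 8 := (min_le_right _ _).trans (min_le_right _ _)
  refine ⟨ρ, hρ, fun x u n l a z₀ hF hl hA => ?_⟩
  obtain ⟨U, hU, hU1, hU2⟩ := hA
  have hx := norm_coe x
  let π : W → (ℝ × ℝ) × ℝ := fun p => ((p.1.1, p.1.2 / l), p.2.1)
  have hπ : Continuous π := by fun_prop
  let Ψ : W → E := fun p => hext φ p.2.1 (p.2.2 • a (π p).1)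
  let s : Set W := {p | (π p).1 ∈ U ∧ |p.2.1| ≤ δ ∧ |p.2.2 - 1| ≤ 2 * ρ}
  have hlow := Lm_low hF hx (h.perp x) h.m_pos (h.low x)
  have he : ∀ p ∈ s, ∀ q ∈ s,
      ‖Ψ p - Ψ q - Lm n u (X x) x (p - q)‖ ≤ μ / 2 * ‖p - q‖ := by
    rintro p ⟨p1, p2, p3⟩ q ⟨q1, q2, q3⟩
    have d1 : |p.1.1 - q.1.1| ≤ ‖p - q‖ := c11 (p - q)
    have d2 : |p.1.2 - q.1.2| ≤ ‖p - q‖ := c12 (p - q)
    have d3 : |p.2.1 - q.2.1| ≤ ‖p - q‖ := c21 (p - q)
    have d4 : |p.2.2 - q.2.2| ≤ ‖p - q‖ := c22 (p - q)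
    have h2 := hU2 _ p1 _ q1
    have r1 : ((π p).1.2 - (π q).1.2) * l = p.1.2 - q.1.2 := by
      simp only [π]; field_simp
    have r2 : |(π p).1.2 - (π q).1.2| * l = |p.1.2 - q.1.2| := by
      rw [← r1, abs_mul, abs_of_pos hl]
    rw [r1, r2] at h2
    obtain ⟨g1, g2⟩ := est hx hF.nn hF.nu hρ hρ8 (hU1 _ q1) p3 d1 d2 d4 h2
    have y1 := near hx hρ hρ8 (hU1 _ p1) p3
    have y2 := near hx hρ hρ8 (hU1 _ q1) q3
    have g3 := hun x _ _ _ _ (y1.trans (by linarith)) (y2.trans (by linarith)) p2 q2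
    have id1 : Ψ p - Ψ q - Lm n u (X x) x (p - q)
        = (hext φ p.2.1 (p.2.2 • a (π p).1) - hext φ q.2.1 (q.2.2 • a (π q).1)
            - (p.2.2 • a (π p).1 - q.2.2 • a (π q).1) - (p.2.1 - q.2.1) • X x)
          + (p.2.2 • a (π p).1 - q.2.2 • a (π q).1
            - ((p.1.1 - q.1.1) • n + (p.1.2 - q.1.2) • u + (p.2.2 - q.2.2) • (x : E))) := by
      rw [Lm_apply]
      simp only [Ψ, Prod.fst_sub, Prod.snd_sub]
      abel
    rw [id1]
    refine (norm_add_le _ _).trans ?_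
    have hD := norm_nonneg (p - q)
    have g4 : μ / 40 * (‖p.2.2 • a (π p).1 - q.2.2 • a (π q).1‖ + |p.2.1 - q.2.1|)
        ≤ μ / 40 * (5 * ‖p - q‖ + ‖p - q‖) := by gcongr
    have g5 : 9 * ρ * ‖p - q‖ ≤ 9 * (μ / 40) * ‖p - q‖ := by gcongr
    have g6 : 0 ≤ μ * ‖p - q‖ := mul_nonneg hμ.le hD
    linarith
  have hne : ∀ z ∈ U, a z ≠ 0 := fun z hz =>
    ne_zero_of_near (x := x) ((hU1 z hz).trans_lt (by linarith))
  constructor
  · refine ⟨U ×ˢ Icc (-δ) δ, prod_mem_nhds hU (Icc_mem_nhds (by linarith) hδ), ?_⟩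
    let j : (ℝ × ℝ) × ℝ → W := fun w => ((w.1.1, w.1.2 * l), (w.2, ‖a w.1‖⁻¹))
    have hj : ∀ w, π (j w) = w := fun w => by
      simp only [π, j, mul_div_cancel_right₀ _ hl.ne']
    have hjs : ∀ w ∈ U ×ˢ Icc (-δ) δ, j w ∈ s := fun w hw =>
      ⟨by rw [hj]; exact hw.1, abs_le.2 hw.2, inv_near hx hρ8 (hU1 _ hw.1)⟩
    have hjΨ : ∀ w ∈ U ×ˢ Icc (-δ) δ, Ψ (j w) = φ w.2 (N (a w.1)) := fun w hw => by
      simp only [Ψ]
      rw [hj]
      change hext φ w.2 (‖a w.1‖⁻¹ • a w.1) = _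
      rw [← coe_N (hne _ hw.1), hext_coe]
    intro w hw w' hw' hww
    have e1 := he _ (hjs w hw) _ (hjs w' hw')
    have hww' : φ w.2 (N (a w.1)) = φ w'.2 (N (a w'.1)) := hww
    rw [hjΨ w hw, hjΨ w' hw', hww', sub_self, zero_sub, norm_neg] at e1
    have e2 := hlow (j w - j w')
    have e3 : ‖j w - j w'‖ ≤ 0 := by
      by_contra hc
      push Not at hc
      have := mul_pos hμ hc
      linarith
    rw [← hj w, ← hj w', sub_eq_zero.1 (norm_le_zero_iff.1 e3)]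
  · let w₀ : W := ((z₀.1, z₀.2 * l), (0, 1))
    have hw₀ : π w₀ = (z₀, 0) := by
      simp only [π, w₀, mul_div_cancel_right₀ _ hl.ne']
    have hs : s ∈ 𝓝 w₀ := by
      have a1 : ∀ᶠ p in 𝓝 w₀, (π p).1 ∈ U := by
        apply (continuous_fst.comp hπ).continuousAt.preimage_mem_nhds
        change U ∈ 𝓝 (π w₀).1
        rw [hw₀]; exact hU
      have a2 : ∀ᶠ p : W in 𝓝 w₀, |p.2.1| < δ :=
        (by fun_prop : Continuous fun p : W => |p.2.1|).continuousAt.eventually_lt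
          continuousAt_const (by simpa [w₀] using hδ)
      have a3 : ∀ᶠ p : W in 𝓝 w₀, |p.2.2 - 1| < 2 * ρ :=
        (by fun_prop : Continuous fun p : W => |p.2.2 - 1|).continuousAt.eventually_lt
          continuousAt_const (by simpa [w₀] using hρ)
      filter_upwards [a1, a2, a3] with p b1 b2 b3 using ⟨b1, b2.le, b3.le⟩
    have hmap := map_eq hμ hlow hs he
    set f : (ℝ × ℝ) × ℝ → S := fun w => φ w.2 (N (a w.1)) with hf
    have hΨ : ∀ p ∈ s, 0 < ‖p.2.2 • a (π p).1‖ ∧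
        Ψ p = ‖p.2.2 • a (π p).1‖ • (f (π p) : E) := by
      rintro p ⟨p1, -, p3⟩
      have hr : 0 < p.2.2 := by linarith [(abs_le.1 p3).1]
      refine ⟨norm_pos_iff.2 (smul_ne_zero hr.ne' (hne _ p1)), ?_⟩
      simp only [Ψ, hext, hf]
      rw [N_smul hr]
    have hev : (N ∘ Ψ) =ᶠ[𝓝 w₀] (f ∘ π) := by
      filter_upwards [hs] with p hp
      obtain ⟨k1, k2⟩ := hΨ p hp
      simp only [Function.comp]
      rw [k2, N_smul k1, N_coe]
    obtain ⟨k1, k2⟩ := hΨ w₀ (mem_of_mem_nhds hs)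
    rw [hw₀] at k1 k2
    set c : ℝ := ‖w₀.2.2 • a (z₀, (0 : ℝ)).1‖ with hc
    let σ : S → E := fun q => c • (q : E)
    have hσ : Continuous σ := by fun_prop
    have hNσ : N ∘ σ = id := by
      funext q
      simp only [Function.comp, σ, id]
      rw [N_smul k1, N_coe]
    calc 𝓝 (f (z₀, 0)) = map (N ∘ σ) (𝓝 (f (z₀, 0))) := by rw [hNσ, map_id]
      _ = map N (map σ (𝓝 (f (z₀, 0)))) := map_map.symm
      _ ≤ map N (𝓝 (σ (f (z₀, 0)))) := map_mono (hσ.tendsto _)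
      _ = map N (map Ψ (𝓝 w₀)) := by rw [hmap, k2]
      _ = map (f ∘ π) (𝓝 w₀) := by rw [map_map]; exact map_congr hev
      _ = map f (map π (𝓝 w₀)) := map_map.symm
      _ ≤ map f (𝓝 (z₀, 0)) := map_mono (by rw [← hw₀]; exact hπ.tendsto _)

end Pool.Agent.Lib.MP_399f8e_an.Rg
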