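import Pool.Agent.Lib.MP_399f8e_an.Rg.Lift

open Set Filter Topology Metric
open scoped RealInnerProductSpace

noncomputable section

namespace Pool.Agent.Lib.MP_399f8e_an.Rg

namespace LyapAux

/-- the clamp to the unit interval -/
def beta (t : ℝ) : ℝ := max 0 (min t 1)

theorem beta_cont : Continuous beta := by unfold beta; fun_prop

theorem beta_mono {s t : ℝ} (h : s ≤ t) : beta s ≤ beta t :=
  max_le_max le_rfl (min_le_min h le_rfl)

theorem beta_zero : beta 0 = 0 := by simp [beta]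

theorem beta_one : beta 1 = 1 := by simp [beta]

theorem beta_coe {t : ℝ} (h : t ∉ Icc (0 : ℝ) 1) : ((beta t : ℝ) : AddCircle (1 : ℝ)) = 0 := by
  by_cases h0 : t < 0
  · have : beta t = 0 := max_eq_left ((min_le_left _ _).trans h0.le)
    rw [this, AddCircle.coe_zero]
  · have h1 : 1 ≤ t := by
      by_contra h1
      exact h ⟨not_lt.1 h0, (not_le.1 h1).le⟩
    have : beta t = 1 := by
      unfold beta
      rw [min_eq_right h1, max_eq_right zero_le_one]
    rw [this, AddCircle.coe_period]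

variable {Y B : Type} [TopologicalSpace Y] [CompactSpace Y] [TopologicalSpace B] [T2Space B]

/-- the part of a fibre between two heights -/
def fib (Φ : Y × ℝ → B) (y : B) (a b : ℝ) : Set (Y × ℝ) := {z | Φ z = y ∧ z.2 ∈ Icc a b}

theorem fib_finite {Φ : Y × ℝ → B} (hc : Continuous Φ) (hn : ∀ z, Nice Φ z) (y : B) (a b : ℝ) :
    (fib Φ y a b).Finite := by
  have hK : IsCompact ((univ : Set Y) ×ˢ Icc a b) := isCompact_univ.prod isCompact_Icc
  have hF : IsCompact (fib Φ y a b) := by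
    have e : fib Φ y a b = ((univ : Set Y) ×ˢ Icc a b) ∩ Φ ⁻¹' {y} := by
      ext z
      simp [fib, and_comm]
    rw [e]
    exact hK.inter_right (isClosed_singleton.preimage hc)
  choose U hU hinj using fun z => (hn z).1
  obtain ⟨t, ht, hcov⟩ := hF.elim_nhds_subcover U fun z _ => hU z
  refine t.finite_toSet.subset fun w hw => ?_
  obtain ⟨z, hz, hwz⟩ := mem_iUnion₂.1 (hcov hw)
  have : w = z := hinj z hwz (mem_of_mem_nhds (hU z)) (hw.1.trans (ht z hz).1.symm)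
  rw [this]
  exact hz

/-- the circle valued counting function -/
def theta {Φ : Y × ℝ → B} (hc : Continuous Φ) (hn : ∀ z, Nice Φ z) (y : B) : AddCircle (1 : ℝ) :=
  ∑ z ∈ (fib_finite hc hn y 0 1).toFinset, ((beta z.2 : ℝ) : AddCircle (1 : ℝ))

theorem theta_eq {Φ : Y × ℝ → B} (hc : Continuous Φ) (hn : ∀ z, Nice Φ z) (y : B) {ι : Type}
    (Z : Finset ι) (s : ι → Y × ℝ) (hinj : ∀ i ∈ Z, ∀ j ∈ Z, s i = s j → i = j)
    (hs : ∀ i ∈ Z, Φ (s i) = y) (hcov : ∀ w ∈ fib Φ y 0 1, ∃ i ∈ Z, s i = w) :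
    theta hc hn y = ∑ i ∈ Z, ((beta (s i).2 : ℝ) : AddCircle (1 : ℝ)) := by
  classical
  rw [← Finset.sum_image (s := Z) (g := s)
    (f := fun z : Y × ℝ => ((beta z.2 : ℝ) : AddCircle (1 : ℝ))) fun i hi j hj => hinj i hi j hj]
  refine Finset.sum_subset (fun w hw => ?_) fun w hw hw' => ?_
  · exact Finset.mem_image.2 (hcov w ((Set.Finite.mem_toFinset _).1 hw))
  · obtain ⟨i, hi, rfl⟩ := Finset.mem_image.1 hw
    exact beta_coe fun hm => hw' ((Set.Finite.mem_toFinset _).2 ⟨hs i hi, hm⟩)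

omit [CompactSpace Y] [T2Space B] in
theorem exists_section {Φ : Y × ℝ → B} (z : Y × ℝ) (hn : Nice Φ z) :
    ∃ (U : Set (Y × ℝ)) (s : B → Y × ℝ), IsOpen U ∧ z ∈ U ∧ Tendsto s (𝓝 (Φ z)) (𝓝 z) ∧
      (∀ᶠ y in 𝓝 (Φ z), Φ (s y) = y) ∧ ∀ w ∈ U, s (Φ w) = w := by
  obtain ⟨⟨U, hU, hinj⟩, hop⟩ := hn
  have : Nonempty (Y × ℝ) := ⟨z⟩
  have hl : ∀ w ∈ U, Function.invFunOn Φ U (Φ w) = w := fun w hw => hinj.leftInvOn_invFunOn hw
  refine ⟨interior U, Function.invFunOn Φ U, isOpen_interior, mem_interior_iff_mem_nhds.2 hU, ?_, ?_,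
    fun w hw => hl w (interior_subset hw)⟩
  · intro V hV
    have hm : Φ '' (V ∩ U) ∈ 𝓝 (Φ z) := hop (image_mem_map (inter_mem hV hU))
    refine mem_map.2 (mem_of_superset hm ?_)
    rintro _ ⟨w, hw, rfl⟩
    show Function.invFunOn Φ U (Φ w) ∈ V
    rw [hl w hw.2]
    exact hw.1
  · refine mem_of_superset (hop (image_mem_map hU)) ?_
    rintro _ ⟨w, hw, rfl⟩
    show Φ (Function.invFunOn Φ U (Φ w)) = Φ w
    rw [hl w hw]

theorem theta_cont [T2Space Y] {Φ : Y × ℝ → B} (hc : Continuous Φ) (hn : ∀ z, Nice Φ z) :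
    Continuous (theta hc hn) := by
  refine continuous_iff_continuousAt.2 fun y₀ => ?_
  choose U s hUo hUm hst hsr hsl using fun z => exists_section z (hn z)
  set Z := (fib_finite hc hn y₀ 0 1).toFinset with hZ
  have hZm : ∀ z ∈ Z, z ∈ fib Φ y₀ 0 1 := fun z hz => (Set.Finite.mem_toFinset _).1 hz
  have hst' : ∀ z ∈ Z, Tendsto (s z) (𝓝 y₀) (𝓝 z) := fun z hz => by
    have := hst z
    rwa [(hZm z hz).1] at this
  have h1 : ∀ᶠ y in 𝓝 y₀, ∀ z ∈ Z, Φ (s z y) = y := by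
    refine (Finset.eventually_all Z).2 fun z hz => ?_
    have := hsr z
    rwa [(hZm z hz).1] at this
  have h2 : ∀ᶠ y in 𝓝 y₀, ∀ z ∈ Z, ∀ z' ∈ Z, s z y = s z' y → z = z' := by
    refine (Finset.eventually_all Z).2 fun z hz => (Finset.eventually_all Z).2 fun z' hz' => ?_
    by_cases hzz : z = z'
    · exact Eventually.of_forall fun _ _ => hzz
    · obtain ⟨u, v, hu, hv, huv⟩ := t2_separation_nhds hzz
      filter_upwards [hst' z hz hu, hst' z' hz' hv] with y hy hy' he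
      have hy1 : s z y ∈ u := hy
      have hy2 : s z' y ∈ v := hy'
      rw [← he] at hy2
      exact absurd hy2 (Set.disjoint_left.1 huv hy1)
  have h3 : ∀ᶠ y in 𝓝 y₀, ∀ w ∈ fib Φ y 0 1, ∃ z ∈ Z, s z y = w := by
    have hK : IsCompact (((univ : Set Y) ×ˢ Icc (0 : ℝ) 1) \ ⋃ z ∈ Z, U z) :=
      (isCompact_univ.prod isCompact_Icc).diff (isOpen_biUnion fun z _ => hUo z)
    have hcl := (hK.image hc).isClosed
    have hy₀ : y₀ ∈ (Φ '' (((univ : Set Y) ×ˢ Icc (0 : ℝ) 1) \ ⋃ z ∈ Z, U z))ᶜ := by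
      rintro ⟨w, hw, hwy⟩
      exact hw.2 (mem_iUnion₂.2 ⟨w, (Set.Finite.mem_toFinset _).2 ⟨hwy, hw.1.2⟩, hUm w⟩)
    filter_upwards [hcl.isOpen_compl.mem_nhds hy₀] with y hy w hw
    by_contra hne
    refine hy ⟨w, ⟨⟨mem_univ _, hw.2⟩, fun hU => hne ?_⟩, hw.1⟩
    obtain ⟨z, hz, hwz⟩ := mem_iUnion₂.1 hU
    exact ⟨z, hz, by rw [← hw.1]; exact hsl z w hwz⟩
  have he : (fun y => ∑ z ∈ Z, ((beta (s z y).2 : ℝ) : AddCircle (1 : ℝ))) =ᶠ[𝓝 y₀] theta hc hn := by
    filter_upwards [h1, h2, h3] with y a1 a2 a3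
    exact (theta_eq hc hn y Z (fun z => s z y) a2 a1 a3).symm
  refine Tendsto.congr' he ?_
  refine tendsto_finsetSum Z fun z hz => ?_
  have hb : Continuous fun w : Y × ℝ => ((beta w.2 : ℝ) : AddCircle (1 : ℝ)) :=
    (AddCircle.continuous_mk' (1 : ℝ)).comp (beta_cont.comp continuous_snd)
  exact (hb.tendsto z).comp (hst' z hz)

end LyapAux

open LyapAux in
theorem exists_lyap {φ : ℝ → S → S} (h : IsFl φ) {Y : Type} [TopologicalSpace Y] [CompactSpace Y]
    [T2Space Y] [Nonempty Y] (Φ : Y × ℝ → S) (hc : Continuous Φ) (hn : ∀ z, Nice Φ z)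
    (he : ∀ p t s, Φ (p, s + t) = φ s (Φ (p, t))) :
    ∃ Θ : S → ℝ, Continuous Θ ∧ (∀ y t, 0 ≤ t → Θ y ≤ Θ (φ t y)) ∧
      ∃ y, Θ y + 1 ≤ Θ (φ 1 y) := by
  obtain ⟨Θ, hΘc, hΘ⟩ := exists_lift (theta hc hn) (theta_cont hc hn)
  have key : ∀ y T, 0 ≤ T → Θ (φ T y) =
      Θ y + ∑ z ∈ (fib_finite hc hn y (-T) 1).toFinset, (beta (T + z.2) - beta z.2) := by
    intro y T hT
    set Z := (fib_finite hc hn y (-T) 1).toFinset with hZ
    have hth : ∀ t ∈ Icc (0 : ℝ) T, theta hc hn (φ t y) =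
        ∑ z ∈ Z, ((beta (t + z.2) : ℝ) : AddCircle (1 : ℝ)) := by
      intro t ht
      refine theta_eq hc hn (φ t y) Z (fun z => (z.1, t + z.2)) ?_ ?_ ?_
      · intro i _ j _ hij
        obtain ⟨e1, e2⟩ := Prod.mk.inj hij
        exact Prod.ext e1 (add_left_cancel e2)
      · intro i hi
        have hi' : i ∈ fib Φ y (-T) 1 := (Set.Finite.mem_toFinset _).1 hi
        rw [he, ← hi'.1]
      · intro w hw
        refine ⟨(w.1, -t + w.2), (Set.Finite.mem_toFinset _).2 ⟨?_, ?_, ?_⟩, ?_⟩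
        · rw [he]
          have : Φ (w.1, w.2) = φ t y := hw.1
          rw [this, ← h.add, neg_add_cancel, h.zero]
        · have := hw.2.1
          have := ht.2
          show -T ≤ -t + w.2
          linarith
        · have := hw.2.2
          have := ht.1
          show -t + w.2 ≤ 1
          linarith
        · exact Prod.ext rfl (by simp)
    have h0 := hth 0 ⟨le_rfl, hT⟩
    rw [h.zero] at h0
    have hfl : Continuous fun t : ℝ => φ t y :=
      h.cont.comp (continuous_id.prodMk continuous_const)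
    have := (AddCircle.isCoveringMap_coe (1 : ℝ)).eqOn_of_comp_eqOn (s := Icc (0 : ℝ) T)
      (g₁ := fun t => Θ (φ t y))
      (g₂ := fun t => Θ y + ∑ z ∈ Z, (beta (t + z.2) - beta z.2)) isPreconnected_Icc
      (hΘc.comp hfl).continuousOn
      (continuous_const.add (continuous_finsetSum Z fun z _ =>
        (beta_cont.comp (continuous_id.add continuous_const)).sub continuous_const)).continuousOn
      (fun t ht => by
        simp only [Function.comp_apply]
        rw [hΘ, hth t ht, AddCircle.coe_add, hΘ, h0, Finset.sum_sub_distrib, AddCircle.coe_sub,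
          QuotientAddGroup.mk_sum, QuotientAddGroup.mk_sum]
        simp)
      (a := 0) ⟨le_rfl, hT⟩ (by simp [h.zero])
    exact this ⟨hT, le_rfl⟩
  refine ⟨Θ, hΘc, fun y t ht => ?_, ?_⟩
  · rw [key y t ht]
    exact le_add_of_nonneg_right
      (Finset.sum_nonneg fun z _ => sub_nonneg.2 (beta_mono (by linarith)))
  · obtain ⟨p⟩ := ‹Nonempty Y›
    refine ⟨Φ (p, 0), ?_⟩
    rw [key _ 1 zero_le_one]
    have hm : (p, (0 : ℝ)) ∈ (fib_finite hc hn (Φ (p, 0)) (-1) 1).toFinset :=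
      (Set.Finite.mem_toFinset _).2 ⟨rfl, by norm_num, by norm_num⟩
    have := Finset.single_le_sum (f := fun z : Y × ℝ => beta (1 + z.2) - beta z.2)
      (fun z _ => sub_nonneg.2 (beta_mono (by linarith))) hm
    simp only [add_zero, beta_zero, beta_one, sub_zero] at this
    linarith

end Pool.Agent.Lib.MP_399f8e_an.Rg
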