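import Pool.Agent.Lib.MP_399f8e_an.Rg.Norm

open Set Filter Topology Metric
open scoped RealInnerProductSpace

noncomputable section

namespace Pool.Agent.Lib.MP_399f8e_an.Rg

namespace SigmaAux

theorem small2 {a b : ℝ} (ha : 0 < a) (hb : 0 < b) : ∃ c, 0 < c ∧ c ≤ a ∧ c ≤ b :=
  ⟨min a b, lt_min ha hb, min_le_left _ _, min_le_right _ _⟩

theorem small4 {a b c d : ℝ} (ha : 0 < a) (hb : 0 < b) (hc : 0 < c) (hd : 0 < d) :
    ∃ e, 0 < e ∧ e ≤ a ∧ e ≤ b ∧ e ≤ c ∧ e ≤ d := by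
  obtain ⟨x, hx, h1, h2⟩ := small2 ha hb
  obtain ⟨y, hy, h3, h4⟩ := small2 hc hd
  obtain ⟨z, hz, h5, h6⟩ := small2 hx hy
  exact ⟨z, hz, h5.trans h1, h5.trans h2, h6.trans h3, h6.trans h4⟩

end SigmaAux

open SigmaAux in
theorem exists_corr {φ : ℝ → S → S} {X : S → E} {m M L : ℝ} (h : FD φ X m M L) (ρ : ℝ)
    (hρ : 0 < ρ) : ∃ η : ℝ, 0 < η ∧ ∀ τ : S → ℝ, Close φ τ η →
      ∃ (σ : S → ℝ) (d : ℝ), Corr φ X τ σ ρ d := by
  have hm := h.m_pos
  have hL := h.L_nonneg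
  have hM : 0 < M := hm.trans_le ((h.low pole).trans (h.up pole))
  obtain ⟨r₁, hr₁, e₁⟩ : ∃ r₁ : ℝ, 0 < r₁ ∧ (M + 1) * r₁ = ρ :=
    ⟨ρ / (M + 1), by positivity, by field_simp⟩
  obtain ⟨κ, hκ, κ1, κ2, κ3, κ4⟩ := small4 (one_pos) (show 0 < ρ / 4 by positivity)
    (show 0 < m ^ 2 / (2 * M) by positivity) (show 0 < r₁ * m ^ 2 / (12 * M) by positivity)
  rw [le_div_iff₀ (by positivity)] at κ3 κ4
  obtain ⟨δ, hδ, hU⟩ := h.unif κ hκ
  obtain ⟨r₂, hr₂, r21, r22⟩ := small2 hρ (show 0 < r₁ * m ^ 2 / (6 * (L + 1)) by positivity)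
  rw [le_div_iff₀ (by positivity)] at r22
  obtain ⟨t₀, ht₀, t1, t2, t3, -⟩ := small4 hδ (show (0 : ℝ) < 1 / 2 by norm_num)
    (show 0 < r₂ / (2 * (M + 1)) by positivity) one_pos
  rw [le_div_iff₀ (by positivity)] at t3
  obtain ⟨η₁, hη₁, η1, η2, η3, η4⟩ := small4 (show 0 < r₂ / 2 by positivity)
    (show 0 < δ / 2 by positivity) (show 0 < t₀ * m ^ 2 / (2 * M) by positivity)
    (show 0 < r₁ * m ^ 2 / (6 * M) by positivity)
  obtain ⟨η, hη, η5, η6⟩ := small2 hη₁ one_pos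
  rw [le_div_iff₀ (by positivity)] at η3 η4
  have η3' : η * (2 * M) ≤ t₀ * m ^ 2 := (mul_le_mul_of_nonneg_right η5 (by positivity)).trans η3
  have η4' : η * (6 * M) ≤ r₁ * m ^ 2 := (mul_le_mul_of_nonneg_right η5 (by positivity)).trans η4
  refine ⟨η, hη, fun τ hτ => ?_⟩
  have hU' : ∀ (x z z' : S) (t t' : ℝ), ‖(φ (τ z) z : E) - x‖ ≤ δ → ‖(φ (τ z') z' : E) - x‖ ≤ δ →
      |t| ≤ δ → |t'| ≤ δ →
      ‖(φ (t + τ z) z : E) - φ (t' + τ z') z' - ((φ (τ z) z : E) - φ (τ z') z') - (t - t') • X x‖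
        ≤ κ * (‖(φ (τ z) z : E) - φ (τ z') z'‖ + |t - t'|) := fun x z z' t t' a1 a2 a3 a4 => by
    have := hU x _ _ t t' a1 a2 a3 a4
    rwa [hext_coe, hext_coe, ← h.add, ← h.add] at this
  have hsq : ∀ x, m ^ 2 ≤ ⟪X x, X x⟫ := fun x => by
    rw [real_inner_self_eq_norm_sq]
    exact pow_le_pow_left₀ hm.le (h.low x) 2
  have hin : ∀ (v : E) (x : S) (b : ℝ), ‖v‖ ≤ b → |⟪v, X x⟫| ≤ b * M := fun v x b hb =>
    (abs_real_inner_le_norm _ _).trans
      (mul_le_mul hb (h.up x) (norm_nonneg _) ((norm_nonneg _).trans hb))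
  have hone : ∀ (x : S) (t : ℝ), |t| ≤ t₀ →
      ‖(φ (t + τ x) x : E) - φ (τ x) x - t • X x‖ ≤ κ * |t| := fun x t ht => by
    have := hU' x x x t 0 (by linarith [hτ.near x]) (by linarith [hτ.near x]) (by linarith)
      (by simp [hδ.le])
    simpa using this
  have hex : ∀ x : S, ∃ t, |t| ≤ t₀ ∧ ⟪(φ (t + τ x) x : E) - x, X x⟫ = 0 := fun x => by
    have hc : Continuous fun t : ℝ => ⟪(φ (t + τ x) x : E) - x, X x⟫ :=
      ((continuous_subtype_val.comp (h.cont.comp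
        ((continuous_id.add continuous_const).prodMk continuous_const))).sub
        continuous_const).inner continuous_const
    have e : ∀ t : ℝ, ⟪(φ (t + τ x) x : E) - x, X x⟫
        = ⟪(φ (t + τ x) x : E) - φ (τ x) x - t • X x, X x⟫ + ⟪(φ (τ x) x : E) - x, X x⟫
          + t * ⟪X x, X x⟫ := fun t => by
      simp only [inner_sub_left, real_inner_smul_left]; ring
    have b0 := abs_le.1 (hin _ x _ (hτ.near x))
    have b1 := abs_le.1 (hin _ x _ (hone x t₀ (by rw [abs_of_pos ht₀])))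
    have b2 := abs_le.1 (hin _ x _ (hone x (-t₀) (by rw [abs_neg, abs_of_pos ht₀])))
    rw [abs_of_pos ht₀] at b1
    rw [abs_neg, abs_of_pos ht₀] at b2
    have b3 := mul_le_mul_of_nonneg_left (hsq x) ht₀.le
    have b4 := mul_le_mul_of_nonneg_left κ3 ht₀.le
    obtain ⟨t, ht, h0⟩ := intermediate_value_Icc (show -t₀ ≤ t₀ by linarith) hc.continuousOn
      (show (0 : ℝ) ∈ Icc _ _ from ⟨by rw [e]; nlinarith, by rw [e]; nlinarith⟩)
    exact ⟨t, abs_le.2 ht, h0⟩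
  choose σ hσ ho using hex
  have hnear : ∀ x, ‖(φ (σ x + τ x) x : E) - x‖ ≤ r₂ := fun x => by
    have e : (φ (σ x + τ x) x : E) - x = ((φ (σ x + τ x) x : E) - φ (τ x) x - σ x • X x)
        + ((φ (τ x) x : E) - x) + σ x • X x := by abel
    rw [e]
    refine norm_add₃_le.trans ?_
    rw [norm_smul, Real.norm_eq_abs]
    have b1 := hone x _ (hσ x)
    have b2 : |σ x| * ‖X x‖ ≤ t₀ * M := mul_le_mul (hσ x) (h.up x) (norm_nonneg _) ht₀.le
    have b3 : κ * |σ x| ≤ 1 * t₀ := mul_le_mul κ1 (hσ x) (abs_nonneg _) zero_le_one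
    linarith [hτ.near x]
  have hgg : ∀ z z' : S, ‖(φ (τ z) z : E) - φ (τ z') z' - ((z : E) - z')‖ ≤ η * ‖(z : E) - z'‖ :=
    fun z z' => le_of_eq_of_le (by congr 1; abel) (hτ.lip z z')
  have hgg' : ∀ z z' : S, ‖(φ (τ z) z : E) - φ (τ z') z'‖ ≤ 2 * ‖(z : E) - z'‖ := fun z z' => by
    have e : (φ (τ z) z : E) - φ (τ z') z'
        = ((φ (τ z) z : E) - φ (τ z') z' - ((z : E) - z')) + ((z : E) - z') := by abel
    rw [e]
    refine (norm_add_le _ _).trans ?_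
    have := mul_le_mul_of_nonneg_right η6 (norm_nonneg ((z : E) - z'))
    linarith [hgg z z']
  have hgx : ∀ z x : S, ‖(z : E) - x‖ ≤ δ / 2 → ‖(φ (τ z) z : E) - x‖ ≤ δ := fun z x hz => by
    have e : (φ (τ z) z : E) - x = ((φ (τ z) z : E) - z) + ((z : E) - x) := by abel
    rw [e]
    refine (norm_add_le _ _).trans ?_
    linarith [hτ.near z]
  have hlip : ∀ x x' : S, ‖(x' : E) - x‖ ≤ δ / 2 → |σ x' - σ x| ≤ r₁ * ‖(x' : E) - x‖ := by
    intro x x' hx
    have b1 := hin _ x _ (hU' x x' x (σ x') (σ x) (hgx x' x hx) (hgx x x (by simp; positivity))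
      ((hσ x').trans t1) ((hσ x).trans t1))
    have b2 := hin _ x _ (hgg x' x)
    have b3 : |⟪(φ (σ x' + τ x') x' : E) - x', X x - X x'⟫| ≤ r₂ * (L * ‖(x' : E) - x‖) := by
      refine (abs_real_inner_le_norm _ _).trans (mul_le_mul (hnear x') ?_ (norm_nonneg _) hr₂.le)
      rw [norm_sub_rev (x' : E)]
      exact h.lip x x'
    have e : (σ x' - σ x) * ⟪X x, X x⟫
        = ⟪(φ (σ x' + τ x') x' : E) - x', X x - X x'⟫
          - ⟪(φ (τ x') x' : E) - φ (τ x) x - ((x' : E) - x), X x⟫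
          - ⟪(φ (σ x' + τ x') x' : E) - φ (σ x + τ x) x - ((φ (τ x') x' : E) - φ (τ x) x)
            - (σ x' - σ x) • X x, X x⟫ := by
      have o1 := ho x
      have o2 := ho x'
      rw [inner_sub_right, o2]
      simp only [inner_sub_left, real_inner_smul_left] at o1 ⊢
      linarith
    have b4 : |σ x' - σ x| * m ^ 2 ≤ |(σ x' - σ x) * ⟪X x, X x⟫| := by
      rw [abs_mul]
      exact mul_le_mul_of_nonneg_left ((hsq x).trans (le_abs_self _)) (abs_nonneg _)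
    rw [e] at b4
    have b5 := b4.trans ((abs_sub _ _).trans (add_le_add ((abs_sub _ _).trans
      (add_le_add b3 b2)) b1))
    have b6 := hgg' x' x
    set D := ‖(x' : E) - x‖
    have hD : 0 ≤ D := norm_nonneg _
    set A := |σ x' - σ x|
    have hA : 0 ≤ A := abs_nonneg _
    have c1 : r₂ * (L * D) ≤ r₁ * m ^ 2 / 6 * D := by
      have : r₂ * L ≤ r₁ * m ^ 2 / 6 := by nlinarith
      nlinarith
    have c2 : η * D * M ≤ r₁ * m ^ 2 / 6 * D := by nlinarith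
    have c3 : κ * (‖(φ (τ x') x' : E) - φ (τ x) x‖ + A) * M
        ≤ r₁ * m ^ 2 / 6 * D + A * m ^ 2 / 2 := by
      have c4 : κ * M * ‖(φ (τ x') x' : E) - φ (τ x) x‖ ≤ κ * M * (2 * D) :=
        mul_le_mul_of_nonneg_left b6 (by positivity)
      nlinarith [mul_le_mul_of_nonneg_right κ3 hA, mul_le_mul_of_nonneg_right κ4 hD]
    have c5 : A * m ^ 2 ≤ r₁ * D * m ^ 2 := by linarith
    exact le_of_mul_le_mul_right c5 (by positivity)
  refine ⟨σ, δ / 4, ?_, fun x => (hσ x).trans t2, ho, fun x => (hnear x).trans r21, by positivity,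
    fun x₀ x x' z z' a1 a2 a3 a4 => ?_⟩
  · refine continuous_iff_continuousAt.2 fun x => Metric.continuousAt_iff.2 fun ε hε => ?_
    obtain ⟨e, he, e1, e2⟩ := small2 (show 0 < δ / 2 by positivity) (show 0 < ε / r₁ by positivity)
    refine ⟨e, he, fun x' hx' => ?_⟩
    rw [Subtype.dist_eq, dist_eq_norm] at hx'
    rw [Real.dist_eq]
    refine (hlip x x' (by linarith)).trans_lt ?_
    rw [mul_comm, ← lt_div_iff₀ hr₁]
    linarith
  · have b1 := hU' x₀ z z' (σ x) (σ x') (hgx z x₀ (by linarith)) (hgx z' x₀ (by linarith))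
      ((hσ x).trans t1) ((hσ x').trans t1)
    have b0 : ‖(x : E) - x'‖ ≤ δ / 2 := by
      have e : (x : E) - x' = ((x : E) - x₀) - ((x' : E) - x₀) := by abel
      rw [e]
      exact (norm_sub_le _ _).trans (by linarith)
    have b2 := hlip x' x b0
    have e : (φ (σ x + τ z) z : E) - φ (σ x' + τ z') z' - ((z : E) - z')
        = ((φ (σ x + τ z) z : E) - φ (σ x' + τ z') z' - ((φ (τ z) z : E) - φ (τ z') z')
            - (σ x - σ x') • X x₀)
          + ((φ (τ z) z : E) - φ (τ z') z' - ((z : E) - z')) + (σ x - σ x') • X x₀ := by abel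
    rw [e]
    refine norm_add₃_le.trans ?_
    rw [norm_smul, Real.norm_eq_abs]
    have b3 := hgg z z'
    have b4 := mul_le_mul_of_nonneg_left (hgg' z z') hκ.le
    have b5 : |σ x - σ x'| * ‖X x₀‖ ≤ |σ x - σ x'| * M :=
      mul_le_mul_of_nonneg_left (h.up x₀) (abs_nonneg _)
    have b6 : κ * |σ x - σ x'| ≤ 1 * |σ x - σ x'| := mul_le_mul_of_nonneg_right κ1 (abs_nonneg _)
    have b7 := mul_le_mul_of_nonneg_left b2 (show 0 ≤ M + 1 by positivity)
    rw [← mul_assoc, e₁] at b7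
    have b8 := mul_le_mul_of_nonneg_right κ2 (norm_nonneg ((z : E) - z'))
    have b9 := mul_le_mul_of_nonneg_right (show η ≤ ρ / 2 by linarith) (norm_nonneg ((z : E) - z'))
    nlinarith

end Pool.Agent.Lib.MP_399f8e_an.Rg
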