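import Pool.Agent.Lib.MP_399f8e_an.Rg.Torus
import Pool.Agent.Lib.MP_399f8e_an.Rg.Flow
import Pool.Agent.Lib.MP_399f8e_an.Rg.Aper
import Pool.Agent.Lib.MP_399f8e_an.Rg.Sigma
import Pool.Agent.Lib.MP_399f8e_an.Rg.Cross
import Pool.Agent.Lib.MP_399f8e_an.Rg.Curve
import Pool.Agent.Lib.MP_399f8e_an.Rg.Loc
import Pool.Agent.Lib.MP_399f8e_an.Rg.Lyap

open Set Filter Topology Metric
open scoped RealInnerProductSpace Manifold ContDiff

noncomputable section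

namespace Pool.Agent.Lib.MP_399f8e_an.Rg

/-- an aperiodic flow with a return map close to the identity has a Lyapunov function -/
theorem lyap_of_close {φ : ℝ → S → S} {X : S → E} {m M L : ℝ} (h : FD φ X m M L)
    (hap : ∀ x T, 0 < T → φ T x ≠ x) : ∃ η : ℝ, 0 < η ∧ ∀ τ : S → ℝ, Close φ τ η →
      ∃ Θ : S → ℝ, Continuous Θ ∧ (∀ y t, 0 ≤ t → Θ y ≤ Θ (φ t y)) ∧
        ∃ y, Θ y + 1 ≤ Θ (φ 1 y) := by
  obtain ⟨ρ₀, hρ₀, hloc⟩ := nice_loc h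
  obtain ⟨ρ, hρ, h1, h2⟩ : ∃ ρ : ℝ, 0 < ρ ∧ ρ ≤ 1 / 18 ∧ 28 * ρ ≤ ρ₀ :=
    ⟨min (1 / 18) (ρ₀ / 28), by positivity, min_le_left _ _,
      by linarith [min_le_right (1 / 18) (ρ₀ / 28)]⟩
  obtain ⟨η, hη, hcorr⟩ := exists_corr h ρ hρ
  refine ⟨η, hη, fun τ hτ => ?_⟩
  obtain ⟨σ, d, hσ⟩ := hcorr τ hτ
  have hX : Continuous X := by
    refine (LipschitzWith.of_dist_le' (K := L) fun x y => ?_).continuous
    rw [dist_eq_norm, Subtype.dist_eq, dist_eq_norm]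
    exact h.lip x y
  obtain ⟨u, n, l, hn, hf⟩ := exists_frame X (fun x => φ (σ x + τ x) x) hX
    (h.cont.comp ((hσ.cont.add hτ.cont).prodMk continuous_id)) h.perp
    (fun x hx => by have := h.low x; rw [hx, norm_zero] at this; linarith [h.m_pos])
    (fun x => hap x _ (by linarith [hτ.one_le x, (abs_le.1 (hσ.small x)).1])) ρ (by linarith)
    hσ.near hσ.orth
  obtain ⟨P, c, hP, hc, hper, hcv⟩ := exists_curve n hn (fun x => (hf x).1.nn)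
    (fun x => (hf x).1.xn) ρ hρ
  have : Fact (0 < P) := ⟨hP⟩
  obtain ⟨Φ, hΦ, hΦn, hΦe⟩ := exists_torus h.toIsFl hτ.cont hσ (by linarith) hc hper
    fun θ s h0 h1' => by
      obtain ⟨δ, hδ, hcv'⟩ := hcv θ
      obtain ⟨U, hU, a1, a2⟩ := apx_ann h.toIsFl hτ.cont hσ hρ h1 hc hδ hcv' (hf (c θ)).1
        (hf (c θ)).2.1 (hf (c θ)).2.2 h0 h1'
      refine hloc (c θ) (u (c θ)) (n (c θ)) (l (c θ)) (fun z => ann φ τ σ (c z.1) z.2) (θ, s)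
        (hf (c θ)).1 (hf (c θ)).2.1 ⟨U, hU, fun z hz => (a1 z hz).trans h2, fun z hz z' hz' => ?_⟩
      refine (a2 z hz z' hz').trans (mul_le_mul_of_nonneg_right h2 ?_)
      have := (hf (c θ)).2.1
      positivity
  exact exists_lyap h.toIsFl Φ hΦ hΦn hΦe

theorem per_of_rigid [Fact (Module.finrank ℝ E = 3 + 1)] (φ : ℝ → S → S)
    (hs : ContMDiff (𝓘(ℝ, ℝ).prod (𝓡 3)) (𝓡 3) 2 fun p : ℝ × S => φ p.1 p.2)
    (h0 : ∀ x, φ 0 x = x) (hadd : ∀ s t x, φ (s + t) x = φ s (φ t x))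
    (hr : ∀ η : ℝ, 0 < η → ∃ τ, Close φ τ η) : ∃ x T, 0 < T ∧ φ T x = x := by
  by_contra hcon
  push Not at hcon
  obtain ⟨X, m, M, L, h⟩ := exists_FD φ hs h0 hadd fun x => hcon x 1 one_pos
  obtain ⟨η, hη, hl⟩ := lyap_of_close h hcon
  obtain ⟨τ, hτ⟩ := hr η hη
  obtain ⟨Θ, hΘ, hm, y, hy⟩ := hl τ hτ
  obtain ⟨ε, hε, k⟩ := Metric.continuousAt_iff.1 (hΘ.continuousAt (x := y)) 1 one_pos
  obtain ⟨τ', hτ'⟩ := hr (ε / 2) (by linarith)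
  have h1 := k (x := φ (τ' y) y) (by
    rw [Subtype.dist_eq, dist_eq_norm]; linarith [hτ'.near y])
  have h2 := hm (φ 1 y) (τ' y - 1) (by linarith [hτ'.one_le y])
  rw [← hadd, sub_add_cancel] at h2
  rw [Real.dist_eq] at h1
  linarith [(abs_lt.1 h1).2]

end Pool.Agent.Lib.MP_399f8e_an.Rg
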