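import Pool.Agent.Lib.MP_399f8e_an.Rg.Defs

open Set Filter Topology Metric
open scoped RealInnerProductSpace

noncomputable section

namespace Pool.Agent.Lib.MP_399f8e_an.Rg

theorem norm_coe (x : S) : ‖(x : E)‖ = 1 := by simp

theorem coe_N {y : E} (h : y ≠ 0) : (N y : E) = ‖y‖⁻¹ • y := by simp [N, h]

theorem N_coe (x : S) : N (x : E) = x := by
  have h : (x : E) ≠ 0 := ne_zero_of_mem_unit_sphere x
  apply Subtype.ext
  rw [coe_N h, norm_coe]; simp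

theorem norm_smul_N (y : E) : ‖y‖ • (N y : E) = y := by
  by_cases h : y = 0
  · simp [h]
  · rw [coe_N h, smul_smul, mul_inv_cancel₀ (norm_ne_zero_iff.2 h), one_smul]

theorem N_smul {r : ℝ} (hr : 0 < r) (y : E) : N (r • y) = N y := by
  by_cases h : y = 0
  · simp [h]
  · apply Subtype.ext
    rw [coe_N h, coe_N (smul_ne_zero hr.ne' h), norm_smul, Real.norm_of_nonneg hr.le, smul_smul]
    congr 1
    have := norm_ne_zero_iff.2 h
    field_simp

theorem continuousAt_N {y : E} (h : y ≠ 0) : ContinuousAt N y := by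
  rw [Topology.IsInducing.subtypeVal.continuousAt_iff]
  have h1 : ContinuousAt (fun z : E => ‖z‖⁻¹ • z) y :=
    (continuousAt_id.norm.inv₀ (norm_ne_zero_iff.2 h)).smul continuousAt_id
  refine h1.congr ?_
  filter_upwards [isOpen_ne.mem_nhds h] with z hz
  exact (coe_N hz).symm

theorem hext_coe (φ : ℝ → S → S) (t : ℝ) (x : S) : hext φ t (x : E) = φ t x := by
  rw [hext, N_coe, norm_coe, one_smul]

theorem ne_zero_of_near {x : S} {a : E} (h : ‖a - x‖ < 1) : a ≠ 0 := by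
  rintro rfl
  simp at h

theorem abs_norm_sub_one (x : S) (a : E) : |‖a‖ - 1| ≤ ‖a - x‖ := by
  have := abs_norm_sub_norm_le a (x : E)
  rwa [norm_coe] at this

theorem N_est (x : S) (a a' : E) (d : ℝ) (hd : d ≤ 1 / 4) (ha : ‖a - x‖ ≤ d) (ha' : ‖a' - x‖ ≤ d) :
    ‖(N a : E) - N a' - (a - a')‖ ≤ 2 * |⟪a - a', (x : E)⟫| + 4 * d * ‖a - a'‖ := by
  have h0 : a ≠ 0 := ne_zero_of_near (x := x) (by linarith)
  have h0' : a' ≠ 0 := ne_zero_of_near (x := x) (by linarith)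
  have hd0 : 0 ≤ d := (norm_nonneg _).trans ha
  have h1 := abs_le.1 ((abs_norm_sub_one x a).trans ha)
  have h1' := abs_le.1 ((abs_norm_sub_one x a').trans ha')
  have hp : 0 < ‖a‖ := by linarith
  have hp' : 0 < ‖a'‖ := by linarith
  have e : (N a : E) - N a' - (a - a')
      = (‖a‖⁻¹ - 1) • (a - a') + (‖a‖⁻¹ - ‖a'‖⁻¹) • a' := by
    rw [coe_N h0, coe_N h0']; module
  have b1 : |‖a‖⁻¹ - 1| ≤ 2 * d := by
    have : ‖a‖⁻¹ - 1 = (1 - ‖a‖) / ‖a‖ := by field_simp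
    rw [this, abs_div, abs_of_pos hp, div_le_iff₀ hp]
    have : |1 - ‖a‖| ≤ d := abs_le.2 ⟨by linarith, by linarith⟩
    nlinarith
  have b2 : |‖a‖ - ‖a'‖| * (‖a‖ + ‖a'‖) ≤ 2 * |⟪a - a', (x : E)⟫| + 2 * d * ‖a - a'‖ := by
    have e1 : (‖a‖ - ‖a'‖) * (‖a‖ + ‖a'‖)
        = 2 * ⟪a - a', (x : E)⟫ + ⟪a - a', (a - x) + (a' - x)⟫ := by
      simp only [inner_sub_left, inner_sub_right, inner_add_right, real_inner_self_eq_norm_sq,
        real_inner_comm a a']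
      ring
    have e2 : |⟪a - a', (a - x) + (a' - x)⟫| ≤ ‖a - a'‖ * (2 * d) := by
      refine (abs_real_inner_le_norm _ _).trans (mul_le_mul_of_nonneg_left ?_ (norm_nonneg _))
      exact (norm_add_le _ _).trans (by linarith)
    rw [← abs_of_pos (add_pos hp hp'), ← abs_mul, e1]
    refine (abs_add_le _ _).trans ?_
    rw [abs_mul, abs_two]
    linarith
  have b3 : |‖a‖⁻¹ - ‖a'‖⁻¹| * ‖a'‖ ≤ 2 * |⟪a - a', (x : E)⟫| + 2 * d * ‖a - a'‖ := by
    have : ‖a‖⁻¹ - ‖a'‖⁻¹ = -(‖a‖ - ‖a'‖) / (‖a‖ * ‖a'‖) := by field_simp; ring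
    rw [this, abs_div, abs_neg, abs_of_pos (mul_pos hp hp')]
    have e3 : |‖a‖ - ‖a'‖| / (‖a‖ * ‖a'‖) * ‖a'‖ = |‖a‖ - ‖a'‖| / ‖a‖ := by field_simp
    rw [e3, div_le_iff₀ hp]
    have hq : 0 ≤ |‖a‖ - ‖a'‖| := abs_nonneg _
    have hr : 0 ≤ 2 * |⟪a - a', (x : E)⟫| + 2 * d * ‖a - a'‖ := by positivity
    nlinarith
  rw [e]
  refine (norm_add_le _ _).trans ?_
  rw [norm_smul, norm_smul, Real.norm_eq_abs, Real.norm_eq_abs]
  have := mul_le_mul_of_nonneg_right b1 (norm_nonneg (a - a'))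
  linarith

theorem N_near (x : S) (a : E) (ha : ‖a - x‖ < 1) : ‖(N a : E) - x‖ ≤ 2 * ‖a - x‖ := by
  have e : (N a : E) - x = (1 - ‖a‖) • (N a : E) + (a - x) := by
    rw [sub_smul, one_smul, norm_smul_N]; abel
  rw [e]
  refine (norm_add_le _ _).trans ?_
  rw [norm_smul, norm_coe, Real.norm_eq_abs, abs_sub_comm]
  linarith [abs_norm_sub_one x a]

end Pool.Agent.Lib.MP_399f8e_an.Rg
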