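import Pool.Agent.Lib.MP_399f8e_an.Rg.Ann

open Set Filter Topology Metric
open scoped RealInnerProductSpace

noncomputable section

namespace Pool.Agent.Lib.MP_399f8e_an.Rg

section Nice

variable {A B C : Type} [TopologicalSpace A] [TopologicalSpace B] [TopologicalSpace C]

theorem Nice.comp {f : B → C} {g : A → B} {z : A} (hf : Nice f (g z)) (hg : Nice g z)
    (hc : ContinuousAt g z) : Nice (f ∘ g) z := by
  obtain ⟨⟨U, hU, hi⟩, ho⟩ := hf
  obtain ⟨⟨V, hV, hj⟩, hp⟩ := hg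
  refine ⟨⟨V ∩ g ⁻¹' U, inter_mem hV (hc hU), fun a ha b hb hab => ?_⟩, ?_⟩
  · exact hj ha.1 hb.1 (hi ha.2 hb.2 hab)
  · exact ho.trans (by rw [← map_map]; exact map_mono hp)

theorem Nice.of_inv {g : A → B} {k : B → A} {z : A} (h1 : ∀ a, k (g a) = a) (h2 : ∀ b, g (k b) = b)
    (hk : Continuous k) : Nice g z := by
  refine ⟨⟨univ, univ_mem, fun a _ b _ hab => by rw [← h1 a, hab, h1]⟩, ?_⟩
  have h3 : map k (𝓝 (g z)) ≤ 𝓝 z := by
    have := hk.continuousAt (x := g z)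
    rwa [ContinuousAt, h1] at this
  have h4 : map g (map k (𝓝 (g z))) = 𝓝 (g z) := by
    rw [map_map, show g ∘ k = id from funext h2, map_id]
  exact h4 ▸ map_mono h3

theorem Nice.congr {f f' : A → B} {z : A} (hf : Nice f z) (h : f =ᶠ[𝓝 z] f') : Nice f' z := by
  obtain ⟨⟨U, hU, hi⟩, ho⟩ := hf
  refine ⟨⟨U ∩ {a | f a = f' a}, inter_mem hU h, fun a ha b hb hab => ?_⟩, ?_⟩
  · exact hi ha.1 hb.1 (ha.2.trans (hab.trans hb.2.symm))
  · rw [← h.eq_of_nhds, ← map_congr h]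
    exact ho

theorem Nice.of_comp {f : B → C} {q : A → B} {z : A} (h : Nice (f ∘ q) z)
    (hq : map q (𝓝 z) = 𝓝 (q z)) : Nice f (q z) := by
  obtain ⟨⟨U, hU, hi⟩, ho⟩ := h
  refine ⟨⟨q '' U, hq ▸ image_mem_map hU, ?_⟩, ?_⟩
  · rintro _ ⟨a, ha, rfl⟩ _ ⟨b, hb, rfl⟩ hab
    rw [hi ha hb hab]
  · rw [← hq, map_map]
    exact ho

end Nice

variable (φ : ℝ → S → S) (τ σ : S → ℝ)

/-- the tilt that closes the annulus up -/
def tilt (x : S) (s : ℝ) : ℝ :=
  if s ≤ 1 then s * (σ x + τ x)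
  else (s - 1) * (σ x + τ x) + (σ x + τ (N (ch φ τ σ x (s - 1))))

/-- the tilted annulus moved by the flow -/
def tor (x : S) (s t : ℝ) : S := φ (t - tilt φ τ σ x s) (N (ann φ τ σ x s))

variable {φ τ σ} {X : S → E} {ρ d : ℝ}

theorem tor_sub_one (hφ : IsFl φ) (x : S) {s : ℝ} (h1 : 1 < s) (h2 : s ≤ 2) (t : ℝ) :
    tor φ τ σ x (s - 1) t = tor φ τ σ x s t := by
  rw [tor, tor, tilt, tilt, if_pos (by linarith), if_neg (not_le.2 h1),
    ann_le φ τ σ x (by linarith), ann_ge φ τ σ x h1.le, N_coe, ← hφ.add]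
  congr 1
  ring

theorem continuous_N_ch (hφ : IsFl φ) (hτ : Continuous τ) (h : Corr φ X τ σ ρ d) (hρ : ρ < 1) :
    Continuous fun p : S × ℝ => N (ch φ τ σ p.1 p.2) := by
  have hG : Continuous fun x : S => (φ (σ x + τ x) x : E) :=
    continuous_subtype_val.comp (hφ.cont.comp ((h.cont.add hτ).prodMk continuous_id))
  have hch : Continuous fun p : S × ℝ => ch φ τ σ p.1 p.2 := by
    unfold ch
    exact (continuous_subtype_val.comp continuous_fst).add ((continuous_cl.comp continuous_snd).smul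
      ((hG.comp continuous_fst).sub (continuous_subtype_val.comp continuous_fst)))
  refine continuous_iff_continuousAt.2 fun p => ?_
  refine ContinuousAt.comp (f := fun p : S × ℝ => ch φ τ σ p.1 p.2) (continuousAt_N ?_)
    hch.continuousAt
  refine ne_zero_of_near (x := p.1) ((ch_near h p.1 p.2).trans_lt ?_)
  have hρ0 : 0 ≤ ρ := (norm_nonneg _).trans (h.near p.1)
  nlinarith [cl_nonneg p.2, cl_le_one p.2]

theorem continuous_tilt (hφ : IsFl φ) (hτ : Continuous τ) (h : Corr φ X τ σ ρ d) (hρ : ρ < 1) :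
    Continuous fun p : S × ℝ => tilt φ τ σ p.1 p.2 := by
  have h1 : Continuous fun p : S × ℝ => N (ch φ τ σ p.1 (p.2 - 1)) :=
    (continuous_N_ch hφ hτ h hρ).comp (continuous_fst.prodMk (continuous_snd.sub continuous_const))
  have h2 : Continuous fun p : S × ℝ => σ p.1 := h.cont.comp continuous_fst
  have h3 : Continuous fun p : S × ℝ => τ p.1 := hτ.comp continuous_fst
  unfold tilt
  refine Continuous.if_le (continuous_snd.mul (h2.add h3))
    (((continuous_snd.sub continuous_const).mul (h2.add h3)).add (h2.add (hτ.comp h1)))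
    continuous_snd continuous_const fun p hp => ?_
  rw [hp, sub_self, ch_zero, N_coe]
  ring

theorem continuous_N_ann (hφ : IsFl φ) (hτ : Continuous τ) (h : Corr φ X τ σ ρ d) (hρ : ρ < 1) :
    Continuous fun p : S × ℝ => N (ann φ τ σ p.1 p.2) := by
  have h1 : Continuous fun p : S × ℝ => N (ch φ τ σ p.1 (p.2 - 1)) :=
    (continuous_N_ch hφ hτ h hρ).comp (continuous_fst.prodMk (continuous_snd.sub continuous_const))
  have h2 : Continuous fun p : S × ℝ => σ p.1 := h.cont.comp continuous_fst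
  have e : (fun p : S × ℝ => N (ann φ τ σ p.1 p.2)) = fun p : S × ℝ =>
      if p.2 ≤ 1 then N (ch φ τ σ p.1 p.2)
      else φ (σ p.1 + τ (N (ch φ τ σ p.1 (p.2 - 1)))) (N (ch φ τ σ p.1 (p.2 - 1))) := by
    funext p
    unfold ann
    split_ifs
    · rfl
    · exact N_coe _
  rw [e]
  refine Continuous.if_le (continuous_N_ch hφ hτ h hρ)
    (hφ.cont.comp ((h2.add (hτ.comp h1)).prodMk h1)) continuous_snd continuous_const
    fun p hp => ?_
  rw [hp, sub_self, ch_zero, N_coe, ch_one, N_coe]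

theorem exists_torus (hφ : IsFl φ) (hτ : Continuous τ) (h : Corr φ X τ σ ρ d) (hρ : ρ < 1)
    {P : ℝ} [Fact (0 < P)] {c : ℝ → S} (hc : Continuous c) (hP : Function.Periodic c P)
    (hn : ∀ θ s, 0 < s → s ≤ 1 →
      Nice (fun w : (ℝ × ℝ) × ℝ => φ w.2 (N (ann φ τ σ (c w.1.1) w.1.2))) ((θ, s), 0)) :
    ∃ Φ : (AddCircle P × AddCircle (1 : ℝ)) × ℝ → S, Continuous Φ ∧ (∀ z, Nice Φ z) ∧
      ∀ p t s, Φ (p, s + t) = φ s (Φ (p, t)) := by
  let Φ : (AddCircle P × AddCircle (1 : ℝ)) × ℝ → S := fun z =>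
    tor φ τ σ (hP.lift z.1.1) (AddCircle.equivIoc 1 0 z.1.2 : ℝ) z.2
  let q : (ℝ × ℝ) × ℝ → (AddCircle P × AddCircle (1 : ℝ)) × ℝ := fun w =>
    (((w.1.1 : AddCircle P), (w.1.2 : AddCircle (1 : ℝ))), w.2)
  let Ψ : (ℝ × ℝ) × ℝ → S := fun w => tor φ τ σ (c w.1.1) w.1.2 w.2
  have hq : IsOpenQuotientMap q :=
    (QuotientAddGroup.isOpenQuotientMap_mk.prodMap QuotientAddGroup.isOpenQuotientMap_mk).prodMap
      IsOpenQuotientMap.id
  have hcp : Continuous fun w : (ℝ × ℝ) × ℝ => (c w.1.1, w.1.2) := by fun_prop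
  have ht : Continuous fun w : (ℝ × ℝ) × ℝ => tilt φ τ σ (c w.1.1) w.1.2 :=
    (continuous_tilt hφ hτ h hρ).comp hcp
  have hΨ : Continuous Ψ :=
    hφ.cont.comp ((continuous_snd.sub ht).prodMk ((continuous_N_ann hφ hτ h hρ).comp hcp))
  have heq : ∀ w : (ℝ × ℝ) × ℝ, 0 < w.1.2 → w.1.2 < 2 → Φ (q w) = Ψ w := by
    rintro ⟨⟨θ, s⟩, t⟩ h0 h2
    dsimp only at h0 h2
    have e1 : hP.lift (θ : AddCircle P) = c θ := Function.Periodic.lift_coe hP θ
    change tor φ τ σ (hP.lift (θ : AddCircle P))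
      (AddCircle.equivIoc 1 0 (s : AddCircle (1 : ℝ)) : ℝ) t = tor φ τ σ (c θ) s t
    rw [e1]
    rcases le_or_gt s 1 with h1 | h1
    · rw [AddCircle.equivIoc_coe_eq (by simpa using ⟨h0, h1⟩)]
    · have e2 : (s : AddCircle (1 : ℝ)) = ((s - 1 : ℝ) : AddCircle (1 : ℝ)) := by
        rw [← AddCircle.coe_add_period (1 : ℝ) (s - 1), sub_add_cancel]
      rw [e2, AddCircle.equivIoc_coe_eq (by constructor <;> linarith)]
      exact tor_sub_one hφ _ h1 h2.le t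
  have hrep : ∀ z : (AddCircle P × AddCircle (1 : ℝ)) × ℝ, ∃ w : (ℝ × ℝ) × ℝ,
      q w = z ∧ 0 < w.1.2 ∧ w.1.2 ≤ 1 := by
    rintro ⟨⟨a, b⟩, t⟩
    obtain ⟨θ, rfl⟩ := QuotientAddGroup.mk_surjective a
    obtain ⟨s, hs, rfl⟩ := AddCircle.eq_coe_Ioc b
    exact ⟨((θ, s), t), rfl, hs.1, hs.2⟩
  have hev : ∀ w : (ℝ × ℝ) × ℝ, 0 < w.1.2 → w.1.2 ≤ 1 → Ψ =ᶠ[𝓝 w] Φ ∘ q := by
    intro w h0 h1
    have o1 : IsOpen {w : (ℝ × ℝ) × ℝ | 0 < w.1.2} := isOpen_lt continuous_const (by fun_prop)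
    have o2 : IsOpen {w : (ℝ × ℝ) × ℝ | w.1.2 < 2} := isOpen_lt (by fun_prop) continuous_const
    filter_upwards [o1.mem_nhds h0, o2.mem_nhds (show w.1.2 < 2 by linarith)] with v a1 a2
    exact (heq v a1 a2).symm
  have hΨn : ∀ w : (ℝ × ℝ) × ℝ, 0 < w.1.2 → w.1.2 ≤ 1 → Nice Ψ w := by
    rintro ⟨⟨θ, s⟩, t⟩ h0 h1
    set t₀ := t - tilt φ τ σ (c θ) s with ht₀
    let sh : (ℝ × ℝ) × ℝ → (ℝ × ℝ) × ℝ := fun w =>
      (w.1, w.2 - tilt φ τ σ (c w.1.1) w.1.2 - t₀)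
    have hsh : Continuous sh := continuous_fst.prodMk ((continuous_snd.sub ht).sub continuous_const)
    have n1 : Nice sh ((θ, s), t) := Nice.of_inv
      (k := fun w => (w.1, w.2 + tilt φ τ σ (c w.1.1) w.1.2 + t₀))
      (fun a => Prod.ext rfl (by dsimp only [sh]; ring))
      (fun a => Prod.ext rfl (by dsimp only [sh]; ring))
      (continuous_fst.prodMk ((continuous_snd.add ht).add continuous_const))
    have e0 : sh ((θ, s), t) = ((θ, s), 0) := by simp [sh, ht₀]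
    have n2 := hn θ s h0 h1
    rw [← e0] at n2
    have n3 := n2.comp n1 hsh.continuousAt
    have n4 : ∀ y, Nice (φ t₀) y := fun y => Nice.of_inv (k := φ (-t₀))
      (fun a => by rw [← hφ.add, neg_add_cancel, hφ.zero])
      (fun a => by rw [← hφ.add, add_neg_cancel, hφ.zero])
      (hφ.cont.comp (continuous_const.prodMk continuous_id))
    have c3 : Continuous ((fun w : (ℝ × ℝ) × ℝ => φ w.2 (N (ann φ τ σ (c w.1.1) w.1.2))) ∘ sh) :=
      (hφ.cont.comp (continuous_snd.prodMk ((continuous_N_ann hφ hτ h hρ).comp hcp))).comp hsh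
    refine ((n4 _).comp n3 c3.continuousAt).congr (Eventually.of_forall fun w => ?_)
    simp only [Function.comp, sh, Ψ, tor, ← hφ.add]
    congr 1
    ring
  refine ⟨Φ, continuous_iff_continuousAt.2 fun z => ?_, fun z => ?_, fun p t s => ?_⟩
  · obtain ⟨w, rfl, h0, h1⟩ := hrep z
    exact hq.continuousAt_comp_iff.1 (hΨ.continuousAt.congr (hev w h0 h1))
  · obtain ⟨w, rfl, h0, h1⟩ := hrep z
    exact ((hΨn w h0 h1).congr (hev w h0 h1)).of_comp (hq.map_nhds_eq w)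
  · simp only [Φ, tor, ← hφ.add]
    congr 1
    ring

end Pool.Agent.Lib.MP_399f8e_an.Rg
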